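import Pool.Agent.RelU.Core

/-!
# RelU: the targets of the jobs

THEOREM in preparation (`MP_a0edbc_lc`): there is an oracle relative to which `UP ∩ E` has no null cover
in `p`, `UP ∩ E_2` has none in `p_2` (so Q1 and Q2 hold, even for `UP`), while `NP ∩ coNP` has dimension
`0` in `E` and `E_2`. Paper proof: idea row 5381.

Every target `T_X` is to be proved as `theorem p_X : T_X` (targets named in brackets may be taken as
hypotheses, `theorem p_X_of (h : T_Y) : T_X`) in a NEW file `Pool/Agent/RelU/P_X.lean`, namespace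
`Pool.Agent.RelU`, helper lemmas in a namespace `X_`. The definitions of `RelU/Core.lean` are those of
`RelC/Core.lean` without parameters and options; `RelU/NN.lean`, `MEAS.lean`, `DENT.lean`, `ACC.lean`
(helper18) contain the lemmas of the files of the same name in `RelC` (`nnmono`, `jjspec`, `hsdep`,
`hsval`, `oldfin`, `old_mono`, `mixp`, `indep`, `lint_mix`, `accl`, ...). All landed files may be used.
-/

set_option autoImplicit false

namespace Pool.Agent.RelU

open MeasureTheory Set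
open scoped ENNReal
open Pool.Agent.RelM (Lang Instr Cfg step run Halts Decides E1 E2 NP pair triple binVal outVal
  Approx IsDensity str pre IsNullCover Null1 Null2 wq sq0 sq1 Asks hq code qb)
open Pool.Agent.RelO (lev IsGale IsGaleCover GaleNull1 GaleNull2 st)
open Pool.Agent.RelS (Z Rl orcV orc acc Idx Om bern bern_prob Dep mixP)
open Pool.Agent.RelB (ML qbs qf ee)
open Pool.Agent.RelT (Fast)

/-! ## Stages (helper18, files NN, DENT, ACC) -/

def T_NNMONO : Prop := StrictMono nn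

def T_NNGE : Prop := ∀ j, j + 2 ≤ nn j

def T_JJ : Prop := ∀ m, m < nn (jj m) ∧ ∀ j, j < jj m → nn j ≤ m

def T_OLDFIN : Prop := ∀ j, (Old j).Finite

/-- The probabilities before stage `j + 1` depend only on the coins that are old at stage `j`. -/
def T_HSDEP : Prop := ∀ (j : ℕ) (ω ω' : Om), (∀ a ∈ Old j, ω a = ω' a) →
  hs ω (j + 1) = hs ω' (j + 1)

def T_HSVAL : Prop := ∀ (ω : Om) (m j : ℕ), j < m → hs ω m j = hf ω j

/-- The bits of the supergales depend only on the stages that can be read. -/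
def T_BLOC : Prop := ∀ (η η' : ℕ → ℕ → ℝ) (u : List Bool),
  (∀ j, 2 ^ nn j ≤ u.length → η j = η' j) → bitsOf η u = bitsOf η' u

/-- The answers on a word of stage `j` depend only on the coins that are old at stage `j + 1` and on
the probabilities before stage `j`. -/
def T_ACC : Prop := ∀ (j t : ℕ) (η η' : ℕ → ℕ → ℝ) (ω ω' : Om), t ∈ Wd j →
  (∀ i, i < j → η i = η' i) → (∀ a ∈ Old (j + 1), ω a = ω' a) →
  (ans j η ω t ↔ ans j η' ω' t) ∧ (ans2 j η ω t ↔ ans2 j η' ω' t)

/-! ## The lower half -/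

/-- **HIT** (40 min). Template `RelC/HIT.lean`, simpler: no options. In `hit_one` the event that the
hidden pair has the key `y` is contained in `{ω | key ω κ' x' = y}` (or is empty if `y.length ≠ lev κ' x'`),
which depends only on the coins of the pair (`pc κ' x'`) and has the probability `2⁻¹ ^ lev κ' x'`
(`lev κ' x'` fair coins with prescribed values, `MEAS.coin_map` or `coin_cyl`), and
`lev κ' x' ≥ lev κ (str t)`. -/
def T_HIT : Prop := ∀ (κ t : ℕ) (Pr : List Instr) (X : Om → List Bool) (τ : ℕ),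
  nn 0 ≤ lev κ (str t) → Dep (Vis κ t) X →
  (∀ ω, (X ω).length + τ < 2 ^ lev κ (str t)) →
  coin {ω | ∃ s ≤ τ, run (oo ω) Pr (X ω) s ≠ run (ov κ t ω) Pr (X ω) s}
    ≤ τ * (2⁻¹ : ℝ≥0∞) ^ (lev κ (str t) / 2)

/-- **FAIR** (20 min). `Rl (zo ω) κ x = ω (κ, x, [], 0)` (the key has the length `lev κ x`), this coin is not
in `Vis κ t` for `x = str t`, so `MEAS.indep` with `p` the coins of the pair (template `RelC/FAIR.lean`,
end of the file; or `RelC/P_FAIRD.lean`). -/
def T_FAIR : Prop := ∀ (κ t : ℕ) (H : Om → ℝ≥0∞) (b : Bool),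
  nn 0 ≤ lev κ (str t) → Measurable H → Dep (Vis κ t) H →
  ∫⁻ ω in {ω | Rl (zo ω) κ (str t) = b}, H ω ∂coin = 2⁻¹ * ∫⁻ ω, H ω ∂coin

/-- **NONB** (50 min; from T_HIT, T_FAIR). Template `RelC/P_NONB.lean` with `RR κ ω = Rl (zo ω) κ` instead of
the language `XL ..`, with `t` instead of `wn t 0` and without T_KB (`start`: `nn 0 ≤ lev κ (str t)` for
`2 ^ nn 0 ≤ t`, `RelC/NONNULL.lean`); the lemmas on the visible coins are those of `RelC/NONNULL.lean`. -/
def T_NONB : Prop := ∀ (κ : ℕ) (Pr : List Instr) (T : ℕ → ℕ), Fast κ T →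
  ∀ᵐ ω ∂coin, ¬ ∃ d : ℕ → List Bool → ℝ,
    IsNullCover d {Rl (zo ω) κ} ∧ Approx (oo ω) Pr T d

/-- **UPM** (25 min). Template `RelQ/P_GDE.lean` (`p_UPG`) and `RelT/NPR.lean` (`npr`): the only accepted
witness of `x` is the key. -/
def T_UPM : Prop := ∀ (G : Lang) (ω : Om) (κ : ℕ),
  Rl (zo ω) κ ∈ Pool.Agent.RelQ.UP (orc G (zo ω))

/-! ## The near-constant lemma (finite combinatorics) -/

/-- **HK** (20 min). Harris-Kleitman for the uniform measure: Mathlib `IsUpperSet.le_card_inter_finset`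
(`𝒜.card * ℬ.card ≤ 2 ^ Fintype.card α * (𝒜 ∩ ℬ).card` for upper sets of finsets), transported by
`B ↦ {x | B x = true}`. -/
def T_HK : Prop := ∀ (X : Type) [Fintype X] (F G : Set (X → Bool)),
  (∀ B B' : X → Bool, B ∈ F → (∀ x, B x = true → B' x = true) → B' ∈ F) →
  (∀ B B' : X → Bool, B ∈ G → (∀ x, B x = true → B' x = true) → B' ∈ G) →
  Pb F * Pb G ≤ Pb (F ∩ G)

/-- **FUB** (15 min). The probability is the mean over the keys of the conditional probability (count
the pairs). -/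
def T_FUB : Prop := ∀ (X K : Type) [Fintype X] [Fintype K] [Nonempty K]
  (S : Set ((X → Bool) × (X → K))), Pu S = Ey fun Y : X → K => Pb {B | (B, Y) ∈ S}

/-- **CH** (45 min). If membership in `S` depends only on `B` and the values of `Y` where `B = true`, and
`a Y` is the probability of `S` given `Y`, then `p (1 - p) ≤ 4 E a (1 - a)`. PROOF. Let `B, B', B₂, B₃, Y, Y'`
be independent, `Z x = if B x then Y x else Y' x`. Then `[f B₂ Y ≠ f B' Y'] ≤ [f B₂ Y ≠ f B Y] +
[f B Z ≠ f B₃ Z] + [f B₃ Z ≠ f (¬B) Z] + [f (¬B) Y' ≠ f B' Y']`, because `f B Y = f B Z` and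
`f (¬B) Z = f (¬B) Y'` (`Z = Y'` where `B = false`). The mean of the left side is `2 p (1 - p)`, the mean of each
term on the right side is `D = 2 E a (1 - a)`: for fixed `B` the map `(Y, Y') ↦ (Z, Z')`,
`Z' x = if B x then Y' x else Y x`, is a bijection of the pairs, and `B ↦ ¬B` is a bijection. (Write the
means as sums: `Σ_{B,B',Y} [f B Y ≠ f B' Y] = ..`; put real indicators.) -/
def T_CH : Prop := ∀ (X K : Type) [Fintype X] [Fintype K] [Nonempty K]
  (S : Set ((X → Bool) × (X → K))),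
  (∀ (B : X → Bool) (Y Y' : X → K), (∀ x, B x = true → Y x = Y' x) →
    ((B, Y) ∈ S ↔ (B, Y') ∈ S)) →
  Pu S * (1 - Pu S) ≤
    4 * Ey fun Y : X → K => Pb {B | (B, Y) ∈ S} * (1 - Pb {B | (B, Y) ∈ S})

/-- **UC** (50 min). PROOF. Number the pairs `i = (B₀, Y₀)` (`Fintype.equivFin`), let `c i = cfg e i.1 i.2`. For a
pair `p` with `cfg p ∈ Up A` let `m p` be the first `i` with `c i ∈ A` and `c i ≤ cfg p` (it exists: a member
`c0` of `A` below `cfg p` is `cfg e B₀ Y` with `B₀ x = (c0 x).isSome`, `Y` that of `p`). Fix `i` and a certificate `Q` of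
`c i`. If `m p = i` and `cfg p ∉ A` then by the certificate for some `(x, v) ∈ Q` the answers of `cfg p` and
`c i` differ; as `c i ≤ cfg p` this means `c i x = none`, `B x = true`, `e x (Y x) = v`. So it suffices that for
each `(x, v)` with `c i x = none`: `N * #{p | m p = i, B x = true, e x (Y x) = v} ≤ #{p | m p = i}`. Let
`B' = update B x false`: `m (B', Y) = i` too (`c i ≤ cfg (B', Y)`; an earlier `i'` below `cfg (B', Y)` would
be below `cfg (B, Y)`). `(B, Y) ↦ (B', Y)` is injective on `B x = true` into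
`{p | m p = i, B x = false, e x (Y x) = v}`, and for `B x = false` the configuration does not depend on
`Y x`, so that `N` times this set has at most as many elements as `{p | m p = i, B x = false}` (`Thin`). Sum over
the at most `q` elements of `Q` and over `i`. -/
def T_UC : Prop := ∀ (X K V : Type) [Fintype X] [Fintype K] [Nonempty K] (N q : ℕ)
  (e : X → K → V) (A : Set (X → Option V)), Thin N e → Cert q A →
  (N : ℝ) * Pu {p : (X → Bool) × (X → K) | cfg e p.1 p.2 ∈ Up A ∧ cfg e p.1 p.2 ∉ A} ≤ q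

/-- **NC** (40 min; from T_HK, T_FUB, T_CH, T_UC). `F₁ = Up A₁`, `F₂ = Up A₂`, `Sᵢ = {p | cfg p ∈ Fᵢ}`. For fixed
`Y` the sets `{B | (B, Y) ∈ Sᵢ}` are upper sets (`cfg e B Y ≤ cfg e B' Y`); `a Y, b Y` their
probabilities: `a b ≤ P(S₁ ∩ S₂ | Y)` (HK), `1 - a ≤ b + P(neither | Y)`, so
`E a (1 - a) ≤ P(S₁ ∩ S₂) + P(neither) ≤ ε + 2 q / N`: `S₁ ∩ S₂` is contained in `both in A` and the two sets of
UC, `neither in F` in `neither in A`. CH (`cfg e B Y` depends only on the values of `Y` where `B = true`) gives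
`p (1 - p) ≤ 4 ε + 8 q / N` for `p = Pu S₁`, and `0 ≤ p - Pu {A₁} ≤ q / N`. -/
def T_NC : Prop := ∀ (X K V : Type) [Fintype X] [Fintype K] [Nonempty K] (N q : ℕ) (ε : ℝ)
  (e : X → K → V) (A₁ A₂ : Set (X → Option V)), 0 < N → Thin N e → Cert q A₁ → Cert q A₂ →
  Pu {p : (X → Bool) × (X → K) | cfg e p.1 p.2 ∈ A₁ ↔ cfg e p.1 p.2 ∈ A₂} ≤ ε →
  Pu {p : (X → Bool) × (X → K) | cfg e p.1 p.2 ∈ A₁} *
    (1 - Pu {p : (X → Bool) × (X → K) | cfg e p.1 p.2 ∈ A₁}) ≤ 4 * ε + 9 * (q / N)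

/-! ## The machines of a stage -/

/-- **THIN** (15 min). The first `lev` of the bits of `k` are prescribed, `nn j ≤ lev < nn (j + 1)`. (Injection of
`Fin (2 ^ nn j) × {k | ek j p k = v}`, or of `(Fin (nn j) → Bool) × ..`, into `KK j`: change the first `nn j` bits.) -/
def T_THIN : Prop := ∀ j : ℕ, Thin (2 ^ nn j) (ek j)

/-- **CRT** (50 min). Template `RelB/ACC.lean` (`cert`, `gg`; `RelS` `Cert`, `oloc`, `orcV`). The questions
`wq κ x y` with `nn j ≤ lev κ x < nn (j + 1)`, `y.length = lev κ x` in an accepting run give `Q` (`(⟨(κ, x), _⟩, y)`); there are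
at most as many questions as steps. For all other words of length at most `qbs (ms j) _ < 2 ^ nn j`
(and `< nn (j + 1)`) the answer does not depend on the configuration: bits can be bought only for
`lev κ x < nn j`, where `Wc` is `zo ω`. -/
def T_CRT : Prop := ∀ (j t : ℕ) (η : ℕ → ℕ → ℝ) (ω : Om) (v : NM), t ∈ Wd j → v ∈ ms j →
  Cert (qbs (ms j) (str t).length) (Ac j η ω v t)

/-- **LNK** (40 min). Locality (`RelS.oloc`, as in `RelC/ACC.lean` `ans_iff`): on words of length at most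
`qbs (ms j) _` the oracles of `zo (mixP (Old j) ω τ)` and of `Wc j ω (cfg ..)` agree: for `lev κ x < nn j` all
coins of the pair are in `Old j`, for `nn j ≤ lev κ x` none of them is. -/
def T_LNK : Prop := ∀ (j t : ℕ) (η : ℕ → ℕ → ℝ) (ω τ : Om) (v : NM), t ∈ Wd j → v ∈ ms j →
  (acc (oh η (mixP (Old j) ω τ)) v (str t) ↔
    cfg (ek j) (fun x => τ (x.1.1, x.1.2, [], 0))
      (fun x (i : Fin (nn (j + 1))) => τ (x.1.1, x.1.2, [], i.1 + 1)) ∈ Ac j η ω v t)

/-- **UNF** (40 min). The law of finitely many fair coins is uniform (`MEAS.coin_map`, template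
`RelC/MEAS.lean`; `bern (1 / 2)` gives each value the mass `1 / 2`). -/
def T_UNF : Prop := ∀ (X : Type) [Fintype X] (M : ℕ) (r : X → ℕ × List Bool),
  Function.Injective r → ∀ S : Set ((X → Bool) × (X → (Fin M → Bool))),
  coin.real {τ | ((fun x => τ ((r x).1, (r x).2, [], 0)),
    (fun x (i : Fin M) => τ ((r x).1, (r x).2, [], i.1 + 1))) ∈ S} = Pu S

/-- **PAQ** (25 min; from T_NC, T_THIN, T_CRT, T_LNK, T_UNF). `N = 2 ^ nn j`, `q = qbs (ms j) _`, and
`(j + 1) * q ≤ 2 ^ nn j` (`NN.nnmd`, `RelU/ACC.lean` `qb_small`). -/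
def T_PAQ : Prop := ∀ (j t : ℕ) (η : ℕ → ℕ → ℝ) (ω : Om) (ε : ℝ), t ∈ Wd j →
  coin.real {τ | ans j η (mixP (Old j) ω τ) t ↔ ans2 j η (mixP (Old j) ω τ) t} ≤ ε →
  pa j η ω t * (1 - pa j η ω t) ≤ 4 * ε + 9 * (1 / ((j : ℝ) + 1))

/-! ## Infinitely many successes -/

/-- **ENT** (15 min). Continuity of `Real.binEntropy` at `0` and `1` and `a ≤ 2 a (1 - a)` for `a ≤ 1 / 2`. -/
def T_ENT : Prop := ∀ δ : ℝ, 0 < δ → ∃ γ : ℝ, 0 < γ ∧ ∀ a : ℝ, 0 ≤ a → a ≤ 1 →
  a * (1 - a) ≤ γ → Real.binEntropy a ≤ δ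

/-- **DNS** (50 min). Density. `Idx` is countable, so `Om` is metrizable and second countable and `coin` is
outer regular (`MeasurableSet.exists_isOpen_lt_of_lt`, instances for finite measures on metrizable spaces):
let `U ⊇ S` be open with `coin U ≤ (1 + ..) coin S`, `U_j = {ω | ∀ ω', (∀ a ∈ Old j, ω' a = ω a) → ω' ∈ U}`: increasing
(`old_mono`), with union `U` (a basic neighbourhood depends on finitely many coins, each is in `Old j` for
all late `j`), so `coin U_j → coin U`; take `j = Nat.pair e m'` late (`st j = e`). `lint_mix` for `H` the indicator of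
`U_j` gives `∫ over U_j of coin {τ | mixP (Old j) ω τ ∈ S} ≥ (1 - ε) coin U_j`, so some `ω` has `≥ 1 - ε`. -/
def T_DNS : Prop := ∀ (S : Set Om), MeasurableSet S → coin S ≠ 0 → ∀ ε : ℝ, 0 < ε →
  ∀ e m : ℕ, ∃ j, m ≤ j ∧ st j = e ∧ ∃ ω : Om, coin.real {τ | mixP (Old j) ω τ ∉ S} ≤ ε

/-- **SUC** (35 min). `fail_prob` of `RelC/IO.lean` with the hypothesis instead of `stg` (copy the file from
`pp_eq` to `fail_prob`; also prove there, for the other jobs: `truth_iff`, `tr_dep`, `tr2_dep` (the same for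
`Tr2`), `ql_dep`, `fail_dep`, `fail_meas`, `tr_prob`). -/
def T_SUC : Prop := ∀ (δ : ℝ), 0 < δ → ∀ (j : ℕ) (ω : Om),
  ∑ t ∈ Wd j, Real.binEntropy (pp j t ω) ≤ δ / 2 * 2 ^ (nn j + j) →
  coin {τ | mixP (Old j) ω τ ∈ fail δ j} ≤ ENNReal.ofReal (1 / 2)

/-- **PWL** (20 min). `Pw_low` of `RelC/IO.lean`. -/
def T_PWL : Prop := ∀ (δ : ℝ) (j : ℕ) (ω : Om), ω ∉ fail δ j →
  Real.exp (-(δ * 2 ^ (nn j + j) + 2 ^ nn j)) ≤ Pw (hf ω) j (pre (Lj j ω) (2 ^ (nn j + j)))

/-- **IOS** (45 min; from T_PAQ, T_ENT, T_DNS, T_SUC). Suppose that for some `m` the set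
`S = {ω | ∀ j ≥ m, st j = e → (∀ t ∈ Wd j, (Tr j t ω ↔ ¬ Tr2 j t ω)) ∧ ω ∈ fail δ j}` is not null; it is measurable
(each condition depends on `Old (j + 1)`, `RelS.fd`). Take `γ` from ENT for `δ / 4`, `ε = min (γ / 8) (1 / 4)`, and `j`, `ω` from
DNS with `9 / (j + 1) ≤ γ / 2`. For `t ∈ Wd j` the event that both or none of the machines accept
(`Tr`, `Tr2` of `mixP (Old j) ω τ` are `ans j (hs ω j)`, `ans2 j (hs ω j)`, `truth_iff`) has probability `≤ ε`, so by PAQ
`pp (1 - pp) ≤ γ`, the mean entropy is at most `δ / 4`, by SUC the failure has probability `≤ 1 / 2`, but it has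
probability `≥ 1 - ε`. -/
def T_IOS : Prop := ∀ (e : ℕ) (δ : ℝ), 0 < δ → ∀ᵐ ω ∂coin,
  (∀ j, st j = e → ∀ t ∈ Wd j, (Tr j t ω ↔ ¬ Tr2 j t ω)) →
  ∀ m : ℕ, ∃ j, m ≤ j ∧ st j = e ∧ ω ∉ fail δ j

/-- **UPP** (50 min; from T_IOS, T_PWL, `RelB.T_AFF`). Template `RelC/UPP.lean`. For `A ∈ NPco (oo ω)` there is `e` with
`pcode e = (v₁, v₂)`, `A x = true ↔ acc (oo ω) v₁ x`, `A x = false ↔ acc (oo ω) v₂ x`, so the machines of the
stages `j` with `st j = e` satisfy the hypothesis of IOS and `Lj j ω = A`. -/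
def T_UPP : Prop := ∀ᵐ ω ∂coin, ∀ s : ℝ, 0 < s →
  GaleNull1 s (oo ω) (NPco (oo ω)) ∧ GaleNull2 s (oo ω) (NPco (oo ω))

end Pool.Agent.RelU
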