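import Pool.Agent.RelU.Targets
import Pool.Agent.RelB.NN
import Pool.Agent.RelO.LEV
import Pool.Agent.RelM.LOC
import Pool.Agent.RelS.NNS

/-!
# The beginnings of the stages
-/

set_option autoImplicit false

namespace Pool.Agent.RelU

open Pool.Agent.RelB (ML qbs)
open Pool.Agent.RelM (Lang str qb)
open Pool.Agent.RelO (lev st levfin levmono)
open Pool.Agent.RelS (Z Rl orcV orc acc Idx Om Dep mixP)

namespace NN_

theorem thr_spec (j : ℕ) :
    j + 2 ≤ thr j ∧ 2 ^ j ≤ thr j ∧ ∀ n, thr j ≤ n →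
      qbs (ms j) (n + j) + 2 < 2 ^ n ∧
        ((j : ℝ) + 1) * (qbs (ms j) (n + j) : ℝ) ≤ 1 * 2 ^ n := by
  have hne : {N | j + 2 ≤ N ∧ 2 ^ j ≤ N ∧ ∀ n, N ≤ n →
      qbs (ms j) (n + j) + 2 < 2 ^ n ∧
        ((j : ℝ) + 1) * (qbs (ms j) (n + j) : ℝ) ≤ 1 * 2 ^ n}.Nonempty := by
    obtain ⟨N, hN⟩ := Pool.Agent.RelB.NN_.list_bound j ((j : ℝ) + 1) (by positivity)
      (one_pos : (0 : ℝ) < 1) (ms j)
    refine ⟨max N (max (j + 2) (2 ^ j)), ?_, ?_, fun n hn => ⟨?_, ?_⟩⟩
    · exact (le_max_left _ _).trans (le_max_right _ _)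
    · exact (le_max_right _ _).trans (le_max_right _ _)
    · exact (hN n ((le_max_left _ _).trans hn)).1
    · exact (hN n ((le_max_left _ _).trans hn)).2
  exact Nat.sInf_mem hne

theorem thr_le (j : ℕ) : thr j ≤ nn j := by
  cases j with
  | zero => exact le_rfl
  | succ j => rw [nn]; exact le_max_right _ _

end NN_

open NN_

theorem nnmono : T_NNMONO := by
  refine strictMono_nat_of_lt_succ fun j => ?_
  rw [nn]
  refine lt_of_lt_of_le (Nat.lt_succ_of_le ?_) (le_max_left _ _)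
  exact (Nat.le_add_right _ _).trans (le_max_right _ _)

theorem nnge : T_NNGE := fun j => (thr_spec j).1.trans (thr_le j)

theorem nnp (j : ℕ) : 2 ^ j ≤ nn j := (thr_spec j).2.1.trans (thr_le j)

theorem nnq (j n : ℕ) (h : nn j ≤ n) : qbs (ms j) (n + j) + 2 < 2 ^ n :=
  ((thr_spec j).2.2 n ((thr_le j).trans h)).1

theorem nnmd (j n : ℕ) (h : nn j ≤ n) :
    ((j : ℝ) + 1) * (qbs (ms j) (n + j) : ℝ) ≤ 2 ^ n := by
  have := ((thr_spec j).2.2 n ((thr_le j).trans h)).2
  rwa [one_mul] at this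

theorem nnnext (j : ℕ) : qbs (ms j) (nn j + j) < nn (j + 1) := by
  rw [nn]
  exact lt_of_lt_of_le (Nat.lt_succ_of_le (le_max_left _ _)) (le_max_left _ _)

theorem nnnext' (j : ℕ) : nn j + j < nn (j + 1) := by
  rw [nn]
  exact lt_of_lt_of_le (Nat.lt_succ_of_le (le_max_right _ _)) (le_max_left _ _)

theorem jjspec : T_JJ := by
  intro m
  have hne : {j | m < nn j}.Nonempty := ⟨m, by
    have := nnge m
    show m < nn m
    omega⟩
  refine ⟨Nat.sInf_mem hne, fun j hj => ?_⟩
  have := Nat.notMem_of_lt_sInf hj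
  exact not_lt.1 this

/-- The stage of a cost between two beginnings. -/
theorem jj_eq {m j : ℕ} (h1 : nn j ≤ m) (h2 : m < nn (j + 1)) : jj m = j + 1 := by
  obtain ⟨h3, h4⟩ := jjspec m
  have h5 : jj m ≤ j + 1 := by
    by_contra h
    have := h4 (j + 1) (by omega)
    omega
  have h6 : j < jj m := by
    by_contra h
    have h7 : nn (jj m) ≤ nn j := nnmono.monotone (by omega)
    omega
  omega

theorem jj_le {m j : ℕ} (h : m < nn j) : jj m ≤ j := by
  by_contra h1
  have := (jjspec m).2 j (by omega)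
  omega

theorem oldfin : T_OLDFIN := by
  intro j
  have h1 : (Set.Iic (nn j) ×ˢ ({x : List Bool | x.length ≤ nn j} ×ˢ
      ({y : List Bool | y.length ≤ nn j} ×ˢ Set.Iic (nn j))) : Set Idx).Finite :=
    (Set.finite_Iic _).prod ((List.finite_length_le Bool _).prod
      ((List.finite_length_le Bool _).prod (Set.finite_Iic _)))
  refine h1.subset ?_
  rintro ⟨κ, x, y, i⟩ ⟨h2, h3, h4⟩
  have h2' : lev κ x < nn j := h2
  obtain ⟨h5, h6⟩ := levfin κ x (nn j) h2'.le
  exact ⟨h5, h6, h3, h4⟩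

theorem old_mono {m m' : ℕ} (h : m ≤ m') : Old m ⊆ Old m' := by
  rintro a ⟨h1, h2, h3⟩
  have h4 := nnmono.monotone h
  exact ⟨h1.trans_le h4, h2.trans h4, h3.trans h4⟩

/-- Every coin is old in the end. -/
theorem old_all (a : Idx) : ∃ m, a ∈ Old m := by
  refine ⟨lev a.1 a.2.1 + a.2.2.1.length + a.2.2.2, ?_, ?_, ?_⟩
  all_goals
    have := nnge (lev a.1 a.2.1 + a.2.2.1.length + a.2.2.2)
    omega

/-! ## The coins of a pair -/

/-- The coins which a pair uses are old if the pair is cheap. -/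
theorem old_coin {j κ : ℕ} {x : List Bool} (h : lev κ x < nn j) {i : ℕ} (hi : i ≤ lev κ x) :
    ((κ, x, [], i) : Idx) ∈ Old j :=
  ⟨h, Nat.zero_le _, by show i ≤ nn j; omega⟩

theorem key_length (ω : Om) (κ : ℕ) (x : List Bool) : (key ω κ x).length = lev κ x := by
  simp [key]

/-- The world depends only on the coins of the pairs. -/
theorem zo_congr {ω ω' : Om} {κ : ℕ} {x : List Bool}
    (h : ∀ i, i ≤ lev κ x → ω (κ, x, [], i) = ω' (κ, x, [], i)) (y : List Bool) :
    zo ω κ x y = zo ω' κ x y := by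
  have h1 : key ω κ x = key ω' κ x := by
    unfold key
    refine List.map_congr_left fun i hi => ?_
    have := List.mem_range.1 hi
    exact h (i + 1) (by omega)
  unfold zo
  rw [h1, h 0 (Nat.zero_le _)]

/-- The bit of a word. -/
theorem rl_zo (ω : Om) (κ : ℕ) (x : List Bool) : Rl (zo ω) κ x = ω (κ, x, [], 0) := by
  classical
  unfold Rl
  rw [Bool.eq_iff_iff]
  simp only [decide_eq_true_eq]
  constructor
  · rintro ⟨y, _, hy⟩
    unfold zo at hy
    rw [Bool.and_eq_true] at hy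
    exact hy.1
  · intro h
    refine ⟨key ω κ x, key_length ω κ x, ?_⟩
    unfold zo
    simp [h]

/-! ## The histories -/

theorem pa_congr {j : ℕ} {ω ω' : Om} (h : ∀ a ∈ Old j, ω a = ω' a) (η : ℕ → ℕ → ℝ)
    (t : ℕ) : pa j η ω t = pa j η ω' t := by
  have h1 : ∀ τ, mixP (Old j) ω τ = mixP (Old j) ω' τ := by
    intro τ
    funext a
    unfold mixP
    by_cases ha : a ∈ Old j
    · rw [if_pos ha, if_pos ha, h a ha]
    · rw [if_neg ha, if_neg ha]
  unfold pa
  simp only [h1]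

theorem hs_succ (ω : Om) (j : ℕ) : hs ω (j + 1) =
    Function.update (hs ω j) j fun t => pa j (hs ω j) ω t := rfl

theorem hsdep : T_HSDEP := by
  intro j
  induction j with
  | zero =>
    intro ω ω' h
    simp only [hs]
    simp only [pa_congr h]
  | succ j ih =>
    intro ω ω' h
    have h1 := ih ω ω' fun a ha => h a (old_mono (Nat.le_succ j) ha)
    rw [hs_succ ω (j + 1), hs_succ ω' (j + 1), h1]
    simp only [pa_congr h]

theorem hs2_succ (ω : Om) (m j : ℕ) (h : j < m) : hs ω (m + 1) j = hs ω m j := by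
  rw [hs]
  exact Function.update_of_ne (by omega) _ _

theorem hs2_le (ω : Om) {m m' j : ℕ} (hm : m ≤ m') (h : j < m) :
    hs ω m' j = hs ω m j := by
  induction m', hm using Nat.le_induction with
  | base => rfl
  | succ m' hm ih => rw [hs2_succ ω m' j (by omega), ih]

theorem hsval : T_HSVAL := by
  intro ω m j hj
  show hs ω m j = hs ω (j + 1) j
  exact hs2_le ω (by omega) (by omega)

end Pool.Agent.RelU
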