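import Pool.Agent.RelU.MEAS
import Pool.Agent.RelU.DENT
import Pool.Agent.RelB.ACC

/-!
# Locality of acceptance
-/

set_option autoImplicit false

namespace Pool.Agent.RelU

open MeasureTheory Set
open scoped ENNReal
open Pool.Agent.RelB (ML qbs acc_congr str_len_le qbs_mono qb_le_qbs)
open Pool.Agent.RelM (Lang Instr Cfg run Halts pair triple str pre hq wq sq0 sq1 Asks code qb)
open Pool.Agent.RelO (lev st)
open Pool.Agent.RelS (Z Rl orcV orc acc Idx Om Dep mixP oloc mixP_pos mixP_neg)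

theorem Wd_lt {j t : ℕ} (h : t ∈ Wd j) : t < 2 ^ (nn j + j) := (Finset.mem_Ico.1 h).2

theorem qb_small {j t : ℕ} (h : t ∈ Wd j) :
    qbs (ms j) (str t).length < nn (j + 1) ∧ qbs (ms j) (str t).length < 2 ^ nn j ∧
    ((j : ℝ) + 1) * (qbs (ms j) (str t).length : ℝ) ≤ 2 ^ nn j := by
  have h1 := qbs_mono (ms j) (str_len_le (Wd_lt h))
  have h2 := nnq j (nn j) le_rfl
  have h3 := nnmd j (nn j) le_rfl
  refine ⟨h1.trans_lt (nnnext j), by omega, le_trans ?_ h3⟩
  have h4 : (qbs (ms j) (str t).length : ℝ) ≤ qbs (ms j) (nn j + j) := by exact_mod_cast h1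
  gcongr

theorem mem_one (j : ℕ) : (pcode (st j)).1 ∈ ms j := List.mem_cons_self

theorem mem_two (j : ℕ) : (pcode (st j)).2 ∈ ms j :=
  List.mem_cons_of_mem _ List.mem_cons_self

/-- The acceptance by a machine of stage `j` depends only on the coins that are old at stage
`j + 1` and on the probabilities before stage `j`. -/
theorem acc_loc {j t : ℕ} {η η' : ℕ → ℕ → ℝ} {z z' : Z} {v : NM} (ht : t ∈ Wd j)
    (hv : v ∈ ms j) (hh : ∀ i, i < j → η i = η' i)
    (hz : ∀ κ x y, lev κ x < nn (j + 1) → y.length = lev κ x → z κ x y = z' κ x y) :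
    acc (orc (bitsOf η) z) v (str t) ↔ acc (orc (bitsOf η') z') v (str t) := by
  obtain ⟨q1, q2, -⟩ := qb_small ht
  have h0 := qb_le_qbs hv (str t).length
  refine acc_congr fun q hq => ?_
  refine oloc _ _ _ _ _ (qbs (ms j) (str t).length) ?_ ?_ q (hq.trans h0)
  · intro κ x y h1 h2
    exact hz κ x y (by omega) h2
  · intro u hu
    refine bloc _ _ u fun j' hj' => hh j' ?_
    by_contra h5
    have h6 : 2 ^ nn j ≤ 2 ^ nn j' :=
      Nat.pow_le_pow_right (by norm_num) (nnmono.monotone (by omega))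
    omega

theorem accl : T_ACC := by
  intro j t η η' ω ω' ht hh hw
  have hz : ∀ κ x y, lev κ x < nn (j + 1) → y.length = lev κ x →
      zo ω κ x y = zo ω' κ x y := by
    intro κ x y h1 _
    exact zo_congr (fun i hi => hw _ (old_coin h1 hi)) y
  exact ⟨acc_loc ht (mem_one j) hh hz, acc_loc ht (mem_two j) hh hz⟩

end Pool.Agent.RelU
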