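import Pool.Agent.RelU.Targets
import Pool.Agent.RelU.MEAS

/-!
# UNF: the law of finitely many fair coins is uniform
-/

set_option autoImplicit false

namespace Pool.Agent.RelU

open MeasureTheory Set
open scoped ENNReal
open Pool.Agent.RelS (Idx Om bern bern_prob)

namespace UNF_

/-- The coins in question. -/
def io {X : Type} {M : ℕ} (r : X → ℕ × List Bool) : X ⊕ (X × Fin M) → Idx
  | Sum.inl x => ((r x).1, (r x).2, [], 0)
  | Sum.inr p => ((r p.1).1, (r p.1).2, [], p.2.1 + 1)

theorem io_inj {X : Type} {M : ℕ} {r : X → ℕ × List Bool} (hr : Function.Injective r) :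
    Function.Injective (io (M := M) r) := by
  intro a b h
  rcases a with x | p <;> rcases b with y | q
  · simp only [io, Prod.mk.injEq] at h
    rw [hr (Prod.ext h.1 h.2.1)]
  · simp only [io, Prod.mk.injEq] at h
    omega
  · simp only [io, Prod.mk.injEq] at h
    omega
  · obtain ⟨p1, p2⟩ := p
    obtain ⟨q1, q2⟩ := q
    have e1 : (r p1).1 = (r q1).1 := congrArg (fun a : Idx => a.1) h
    have e2 : (r p1).2 = (r q1).2 := congrArg (fun a : Idx => a.2.1) h
    have e3 : p2.1 + 1 = q2.1 + 1 := congrArg (fun a : Idx => a.2.2.2) h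
    have h1 : p1 = q1 := hr (Prod.ext e1 e2)
    have h2 : p2 = q2 := by
      apply Fin.ext
      omega
    rw [h1, h2]

/-- Splitting the values. -/
def gg {X : Type} {M : ℕ} (u : X ⊕ (X × Fin M) → Bool) : (X → Bool) × (X → (Fin M → Bool)) :=
  (fun x => u (Sum.inl x), fun x i => u (Sum.inr (x, i)))

theorem gg_bij {X : Type} {M : ℕ} : Function.Bijective (gg (X := X) (M := M)) := by
  constructor
  · intro u v h
    funext d
    rcases d with x | p
    · exact congrFun (congrArg Prod.fst h) x
    · exact congrFun (congrFun (congrArg Prod.snd h) p.1) p.2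
  · intro p
    refine ⟨fun d => Sum.elim p.1 (fun q => p.2 q.1 q.2) d, ?_⟩
    rfl

open Classical in
theorem pi_fin {D : Type} [Fintype D] (T : Finset (D → Bool)) :
    (Measure.pi fun _ : D => bern (1 / 2)) (T : Set (D → Bool)) =
      T.card * (2⁻¹ : ℝ≥0∞) ^ Fintype.card D := by
  rw [← sum_measure_singleton]
  have h : ∀ u : D → Bool, (Measure.pi fun _ : D => bern (1 / 2)) {u} =
      (2⁻¹ : ℝ≥0∞) ^ Fintype.card D := by
    intro u
    rw [Measure.pi_singleton]
    simp only [bern_half, Finset.prod_const, Finset.card_univ]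
  simp only [h, Finset.sum_const, nsmul_eq_mul]

end UNF_

open UNF_ in
/-- The law of finitely many fair coins is uniform. -/
theorem p_UNF : T_UNF := by
  classical
  intro X _ M r hr S
  have h1 : {τ : Om | ((fun x => τ ((r x).1, (r x).2, [], 0)),
      (fun x (i : Fin M) => τ ((r x).1, (r x).2, [], i.1 + 1))) ∈ S} =
      (fun (τ : Om) d => τ (io (M := M) r d)) ⁻¹' (gg ⁻¹' S) := rfl
  have hm : Measurable fun (ω : Om) (d : X ⊕ (X × Fin M)) => ω (io r d) :=
    measurable_pi_lambda _ fun d => measurable_pi_apply _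
  have h2 : (gg ⁻¹' S : Set (X ⊕ (X × Fin M) → Bool)) =
      ((Finset.univ.filter fun u : X ⊕ (X × Fin M) → Bool => gg u ∈ S : Finset _) : Set _) := by
    ext u
    simp
  rw [h1, measureReal_def, ← Measure.map_apply hm MeasurableSet.of_discrete,
    coin_map _ (io_inj hr), h2, pi_fin]
  have h3 : (Finset.univ.filter fun u : X ⊕ (X × Fin M) → Bool => gg u ∈ S).card =
      (Finset.univ.filter fun p : (X → Bool) × (X → (Fin M → Bool)) => p ∈ S).card := by
    refine Finset.card_bijective gg gg_bij fun u => ?_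
    simp
  have h4 : Fintype.card ((X → Bool) × (X → (Fin M → Bool))) =
      2 ^ Fintype.card (X ⊕ (X × Fin M)) := by
    rw [← Fintype.card_of_bijective (gg_bij (X := X) (M := M)), Fintype.card_fun,
      Fintype.card_bool]
  unfold Pu
  rw [h3, h4, ENNReal.toReal_mul, ENNReal.toReal_pow, ENNReal.toReal_inv]
  simp only [ENNReal.toReal_natCast, ENNReal.toReal_ofNat]
  push_cast
  rw [inv_pow, div_eq_mul_inv]

end Pool.Agent.RelU
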