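import Pool.Agent.RelU.Targets

/-!
# RelU: the mixing chain
-/

set_option autoImplicit false

namespace Pool.Agent.RelU

namespace CH_

theorem abs01 {u v : ℝ} (hu : u = 0 ∨ u = 1) (hv : v = 0 ∨ v = 1) :
    |u - v| = u + v - 2 * (u * v) := by
  rcases hu with rfl | rfl <;> rcases hv with rfl | rfl <;> norm_num

theorem sumabs {α β : Type} [Fintype α] [Fintype β] (u : α → ℝ) (v : β → ℝ)
    (hu : ∀ a, u a = 0 ∨ u a = 1) (hv : ∀ b, v b = 0 ∨ v b = 1) :
    ∑ a, ∑ b, |u a - v b| = Fintype.card β * ∑ a, u a + Fintype.card α * ∑ b, v b -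
      2 * ((∑ a, u a) * ∑ b, v b) := by
  have h1 : ∀ a, ∑ b, |u a - v b| = Fintype.card β * u a + ∑ b, v b - 2 * (u a * ∑ b, v b) := by
    intro a
    rw [Finset.sum_congr rfl fun b _ => abs01 (hu a) (hv b), Finset.sum_sub_distrib,
      Finset.sum_add_distrib, Finset.sum_const, Finset.card_univ, nsmul_eq_mul, Finset.mul_sum,
      Finset.mul_sum]
  rw [Finset.sum_congr rfl fun a _ => h1 a, Finset.sum_sub_distrib, Finset.sum_add_distrib,
    Finset.sum_const, Finset.card_univ, nsmul_eq_mul, ← Finset.mul_sum, ← Finset.mul_sum,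
    ← Finset.sum_mul]

section
variable {X K : Type} [Fintype X] [Fintype K]

/-- The mixture of two families of keys. -/
def zz (B : X → Bool) (Y Y' : X → K) : X → K := fun x => if B x = true then Y x else Y' x

/-- The exchange of two families of keys where `B` is false. -/
def sw (B : X → Bool) (p : (X → K) × (X → K)) : (X → K) × (X → K) :=
  (zz B p.1 p.2, zz B p.2 p.1)

omit [Fintype X] [Fintype K] in
theorem sw_inv (B : X → Bool) : Function.Involutive (sw (K := K) B) := by
  intro p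
  unfold sw zz
  ext x
  · by_cases h : B x = true
    · simp [h]
    · simp [h]
  · by_cases h : B x = true
    · simp [h]
    · simp [h]

open Classical in
theorem sum_zz (B : X → Bool) (g : (X → K) → ℝ) :
    ∑ Y : X → K, ∑ Y' : X → K, g (zz B Y Y') = Fintype.card (X → K) * ∑ Y : X → K, g Y := by
  have h1 : ∑ p : (X → K) × (X → K), g (sw B p).1 = ∑ p : (X → K) × (X → K), g p.1 :=
    Equiv.sum_comp (Function.Involutive.toPerm (sw (K := K) B) (sw_inv B))
      fun p : (X → K) × (X → K) => g p.1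
  rw [Fintype.sum_prod_type, Fintype.sum_prod_type] at h1
  simp only [sw] at h1
  rw [h1, Finset.mul_sum]
  refine Finset.sum_congr rfl fun Y _ => ?_
  rw [Finset.sum_const, Finset.card_univ, nsmul_eq_mul]

/-- The complement. -/
def ng (B : X → Bool) : X → Bool := fun x => !B x

omit [Fintype X] in
theorem ng_inv : Function.Involutive (ng (X := X)) := by
  intro B
  funext x
  simp [ng]

open Classical in
theorem sum_ng (g : (X → Bool) → ℝ) : ∑ B : X → Bool, g (ng B) = ∑ B : X → Bool, g B :=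
  Equiv.sum_comp (Function.Involutive.toPerm ng (ng_inv (X := X))) g

end

section
variable {α β : Type} [Fintype α]

/-- The sum of the distances. -/
noncomputable def ds (f : α → β → ℝ) (B : α) (Y : β) : ℝ := ∑ B' : α, |f B Y - f B' Y|

/-- The chain of inequalities. -/
theorem chain (f : α → β → ℝ) (B C : α) (Y Y' Z : β) (h1 : f B Y = f B Z)
    (h2 : f C Z = f C Y') :
    ∑ B₂ : α, ∑ B' : α, |f B₂ Y - f B' Y'| ≤
      Fintype.card α * (ds f B Y + ds f B Z + ds f C Z + ds f C Y') := by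
  have e1 : ∀ B₂ B' : α, |f B₂ Y - f B' Y'| ≤ |f B Y - f B₂ Y| + |f B Z - f C Z| +
      |f C Y' - f B' Y'| := by
    intro B₂ B'
    have a1 : f B₂ Y - f B' Y' = (f B₂ Y - f B Y) + (f B Z - f C Z) + (f C Y' - f B' Y') := by
      rw [h1, h2]
      ring
    rw [a1]
    refine (abs_add_three _ _ _).trans ?_
    rw [abs_sub_comm (f B₂ Y) (f B Y)]
  have e2 : Fintype.card α * |f B Z - f C Z| ≤ ds f B Z + ds f C Z := by
    have : ∑ _B₃ : α, |f B Z - f C Z| ≤ ∑ B₃ : α, (|f B Z - f B₃ Z| + |f C Z - f B₃ Z|) := by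
      refine Finset.sum_le_sum fun B₃ _ => ?_
      have a1 := abs_sub_le (f B Z) (f B₃ Z) (f C Z)
      rw [abs_sub_comm (f B₃ Z) (f C Z)] at a1
      exact a1
    rw [Finset.sum_const, Finset.card_univ, nsmul_eq_mul, Finset.sum_add_distrib] at this
    exact this
  have e3 : ∑ B₂ : α, ∑ B' : α, |f B₂ Y - f B' Y'| ≤
      ∑ B₂ : α, ∑ B' : α, (|f B Y - f B₂ Y| + |f B Z - f C Z| + |f C Y' - f B' Y'|) :=
    Finset.sum_le_sum fun B₂ _ => Finset.sum_le_sum fun B' _ => e1 B₂ B'
  have e4 : ∑ B₂ : α, ∑ B' : α, (|f B Y - f B₂ Y| + |f B Z - f C Z| + |f C Y' - f B' Y'|) =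
      Fintype.card α * ds f B Y + Fintype.card α * (Fintype.card α * |f B Z - f C Z|) +
        Fintype.card α * ds f C Y' := by
    simp only [Finset.sum_add_distrib, Finset.sum_const, Finset.card_univ, nsmul_eq_mul, ds,
      Finset.mul_sum]
  have e5 : (Fintype.card α : ℝ) * (Fintype.card α * |f B Z - f C Z|) ≤
      Fintype.card α * (ds f B Z + ds f C Z) :=
    mul_le_mul_of_nonneg_left e2 (Nat.cast_nonneg _)
  linarith

end

end CH_

open CH_

open Classical in
theorem p_CH : T_CH := by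
  intro X K _ _ _ S hS
  set f : (X → Bool) → (X → K) → ℝ := fun B Y => if (B, Y) ∈ S then 1 else 0 with hf
  have f01 : ∀ B Y, f B Y = 0 ∨ f B Y = 1 := by
    intro B Y
    rw [hf]
    by_cases h : (B, Y) ∈ S
    · right
      simp [h]
    · left
      simp [h]
  have n0 : (0 : ℝ) < Fintype.card (X → Bool) := by exact_mod_cast Fintype.card_pos
  have m0 : (0 : ℝ) < Fintype.card (X → K) := by exact_mod_cast Fintype.card_pos
  set T : ℝ := ∑ p : (X → Bool) × (X → K), f p.1 p.2 with hT
  set A : (X → K) → ℝ := fun Y => ∑ B : X → Bool, f B Y with hA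
  have hPu : Pu S = T / (Fintype.card (X → Bool) * Fintype.card (X → K)) := by
    unfold Pu
    rw [Fintype.card_prod, Nat.cast_mul, hT, hf]
    congr 1
    simp [Finset.sum_boole]
  have hPb : ∀ Y : X → K, Pb {B | (B, Y) ∈ S} = A Y / Fintype.card (X → Bool) := by
    intro Y
    unfold Pb
    rw [hA, hf]
    congr 1
    simp [Finset.sum_boole]
  -- the chain, summed up
  have hchain : ∀ (B : X → Bool) (Y Y' : X → K),
      ∑ B₂ : X → Bool, ∑ B' : X → Bool, |f B₂ Y - f B' Y'| ≤ Fintype.card (X → Bool) *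
        (ds f B Y + ds f B (zz B Y Y') + ds f (ng B) (zz B Y Y') + ds f (ng B) Y') := by
    intro B Y Y'
    refine chain f B (ng B) Y Y' (zz B Y Y') ?_ ?_
    · have h : (B, Y) ∈ S ↔ (B, zz B Y Y') ∈ S := hS B Y _ fun x hx => by
        unfold zz
        rw [if_pos hx]
      rw [hf]
      simp only [h]
    · have h : (ng B, zz B Y Y') ∈ S ↔ (ng B, Y') ∈ S := hS (ng B) _ _ fun x hx => by
        unfold zz
        have hx' : B x = false := by simpa [ng] using hx
        simp [hx']
      rw [hf]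
      simp only [h]
  have hdd : ∑ B : X → Bool, ∑ Y : X → K, ds f B Y =
      ∑ Y : X → K, 2 * (A Y * (Fintype.card (X → Bool) - A Y)) := by
    rw [Finset.sum_comm]
    refine Finset.sum_congr rfl fun Y _ => ?_
    have := sumabs (fun B => f B Y) (fun B => f B Y) (fun B => f01 B Y) (fun B => f01 B Y)
    unfold ds
    rw [this]
    simp only [hA]
    ring
  have hlhs : ∑ Y : X → K, ∑ Y' : X → K, ∑ B₂ : X → Bool, ∑ B' : X → Bool,
      |f B₂ Y - f B' Y'| =
      2 * (T * (Fintype.card (X → Bool) * Fintype.card (X → K) - T)) := by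
    have h1 := sumabs (fun p : (X → Bool) × (X → K) => f p.1 p.2)
      (fun p : (X → Bool) × (X → K) => f p.1 p.2) (fun p => f01 _ _) (fun p => f01 _ _)
    rw [Fintype.card_prod, Nat.cast_mul] at h1
    have h2 : ∑ Y : X → K, ∑ Y' : X → K, ∑ B₂ : X → Bool, ∑ B' : X → Bool,
        |f B₂ Y - f B' Y'| = ∑ p : (X → Bool) × (X → K), ∑ q : (X → Bool) × (X → K),
        |f p.1 p.2 - f q.1 q.2| := by
      rw [Fintype.sum_prod_type_right]
      refine Finset.sum_congr rfl fun Y _ => ?_
      rw [Finset.sum_comm]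
      refine Finset.sum_congr rfl fun B₂ _ => ?_
      rw [Fintype.sum_prod_type_right]
    rw [h2, h1]
    ring
  have hsum : ∑ B : X → Bool, ∑ Y : X → K, ∑ Y' : X → K, ∑ B₂ : X → Bool, ∑ B' : X → Bool,
      |f B₂ Y - f B' Y'| ≤ ∑ B : X → Bool, ∑ Y : X → K, ∑ Y' : X → K,
        Fintype.card (X → Bool) * (ds f B Y + ds f B (zz B Y Y') + ds f (ng B) (zz B Y Y') +
          ds f (ng B) Y') :=
    Finset.sum_le_sum fun B _ => Finset.sum_le_sum fun Y _ => Finset.sum_le_sum fun Y' _ =>
      hchain B Y Y'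
  have hrhs : ∑ B : X → Bool, ∑ Y : X → K, ∑ Y' : X → K,
        (Fintype.card (X → Bool) : ℝ) * (ds f B Y + ds f B (zz B Y Y') +
          ds f (ng B) (zz B Y Y') + ds f (ng B) Y') =
      Fintype.card (X → Bool) * (4 * (Fintype.card (X → K) *
        ∑ B : X → Bool, ∑ Y : X → K, ds f B Y)) := by
    have r1 : ∑ B : X → Bool, ∑ Y : X → K, ∑ _Y' : X → K, ds f B Y =
        Fintype.card (X → K) * ∑ B : X → Bool, ∑ Y : X → K, ds f B Y := by
      simp only [Finset.sum_const, Finset.card_univ, nsmul_eq_mul, Finset.mul_sum]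
    have r2 : ∑ B : X → Bool, ∑ Y : X → K, ∑ Y' : X → K, ds f B (zz B Y Y') =
        Fintype.card (X → K) * ∑ B : X → Bool, ∑ Y : X → K, ds f B Y := by
      rw [Finset.mul_sum]
      exact Finset.sum_congr rfl fun B _ => sum_zz B fun Y => ds f B Y
    have r3 : ∑ B : X → Bool, ∑ Y : X → K, ∑ Y' : X → K, ds f (ng B) (zz B Y Y') =
        Fintype.card (X → K) * ∑ B : X → Bool, ∑ Y : X → K, ds f B Y := by
      rw [Finset.mul_sum, ← sum_ng fun B => (Fintype.card (X → K) : ℝ) * ∑ Y : X → K, ds f B Y]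
      exact Finset.sum_congr rfl fun B _ => sum_zz B fun Y => ds f (ng B) Y
    have r4 : ∑ B : X → Bool, ∑ _Y : X → K, ∑ Y' : X → K, ds f (ng B) Y' =
        Fintype.card (X → K) * ∑ B : X → Bool, ∑ Y : X → K, ds f B Y := by
      rw [Finset.mul_sum, ← sum_ng fun B => (Fintype.card (X → K) : ℝ) * ∑ Y : X → K, ds f B Y]
      refine Finset.sum_congr rfl fun B _ => ?_
      rw [Finset.sum_const, Finset.card_univ, nsmul_eq_mul]
    simp only [← Finset.mul_sum, Finset.sum_add_distrib]
    rw [r1, r2, r3, r4]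
    ring
  rw [hrhs, Finset.sum_const, Finset.card_univ, nsmul_eq_mul, hlhs, hdd] at hsum
  have hfin : T * (Fintype.card (X → Bool) * Fintype.card (X → K) - T) ≤
      4 * (Fintype.card (X → K) * ∑ Y : X → K, A Y * (Fintype.card (X → Bool) - A Y)) := by
    have h1 := le_of_mul_le_mul_left hsum n0
    rw [← Finset.mul_sum] at h1
    linarith
  have hE : Ey (fun Y : X → K => Pb {B | (B, Y) ∈ S} * (1 - Pb {B | (B, Y) ∈ S})) =
      (∑ Y : X → K, A Y * (Fintype.card (X → Bool) - A Y)) /
        (Fintype.card (X → Bool) ^ 2 * Fintype.card (X → K)) := by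
    unfold Ey
    rw [Finset.sum_div, Finset.sum_div]
    refine Finset.sum_congr rfl fun Y _ => ?_
    rw [hPb Y]
    field_simp
  rw [hE, hPu]
  have hL : T / (Fintype.card (X → Bool) * Fintype.card (X → K)) *
      (1 - T / (Fintype.card (X → Bool) * Fintype.card (X → K))) =
      T * (Fintype.card (X → Bool) * Fintype.card (X → K) - T) /
        (Fintype.card (X → Bool) * Fintype.card (X → K)) ^ 2 := by
    field_simp
  have hR : 4 * ((∑ Y : X → K, A Y * (Fintype.card (X → Bool) - A Y)) /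
        ((Fintype.card (X → Bool) : ℝ) ^ 2 * Fintype.card (X → K))) =
      4 * (Fintype.card (X → K) * ∑ Y : X → K, A Y * (Fintype.card (X → Bool) - A Y)) /
        (Fintype.card (X → Bool) * Fintype.card (X → K)) ^ 2 := by
    field_simp
  rw [hL, hR]
  exact div_le_div_of_nonneg_right hfin (by positivity)

end Pool.Agent.RelU
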