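import Pool.Agent.RelU.Targets
import Pool.Agent.RelU.ACC

/-!
# Certificates of acceptance in terms of the configuration of the new pairs
-/

set_option autoImplicit false

namespace Pool.Agent.RelU

open Pool.Agent.RelM (Lang Instr Cfg run Halts pair triple str pre hq wq sq0 sq1 Asks code qb)
open Pool.Agent.RelO (lev st)
open Pool.Agent.RelS (Z Rl orcV orc acc Idx Om orcV_imp Rl_congr lev_lt_sq1)
open Pool.Agent.RelB (ML qbs ask_len qb_le_qbs)
open Pool.Agent.RelM.HFIX_ (qb_bound)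

namespace CRT_

theorem Wc_lt {j : ℕ} {ω : Om} {c : Nw j → Option (List Bool)} {κ : ℕ} {x y : List Bool}
    (h : lev κ x < nn j) : Wc j ω c κ x y = zo ω κ x y := by
  unfold Wc
  rw [if_pos h]

/-- The words asked determine the answers. -/
theorem orc_imp {j : ℕ} {ω : Om} {G : Lang} {c c' : Nw j → Option (List Bool)} {q : List Bool}
    (hq : q.length < 2 ^ nn j)
    (h : ∀ p : Nw j × List Bool, q = wq p.1.1.1 p.1.1.2 p.2 → c p.1 = some p.2 →
      c' p.1 = some p.2)
    (hT : orc G (Wc j ω c) q = true) : orc G (Wc j ω c') q = true := by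
  unfold orc at hT ⊢
  refine orcV_imp ?_ ?_ ?_ hT
  · intro κ x y _ h2 h3 h4
    refine ⟨trivial, ?_⟩
    unfold Wc at h4 ⊢
    by_cases h5 : lev κ x < nn j
    · rw [if_pos h5] at h4 ⊢
      exact h4
    · rw [if_neg h5] at h4 ⊢
      by_cases h6 : nn j ≤ lev κ x ∧ lev κ x < nn (j + 1)
      · rw [dif_pos h6] at h4 ⊢
        exact decide_eq_true (h (⟨(κ, x), h6⟩, y) h3 (of_decide_eq_true h4))
      · rw [dif_neg h6] at h4
        exact absurd h4 (by decide)
  · intro κ x m _ h2 h3 h4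
    refine ⟨trivial, ?_⟩
    have h5 := lev_lt_sq1 h3
    rw [← h2] at h5
    have h6 : lev κ x < nn j := by
      have h7 : 2 ^ lev κ x < 2 ^ nn j := h5.trans_lt hq
      exact (Nat.pow_lt_pow_iff_right (by norm_num)).1 h7
    rw [← h4]
    refine Rl_congr fun y _ => ?_
    rw [Wc_lt h6, Wc_lt h6]
  · intro u _ h4
    exact h4

end CRT_

open CRT_ in
theorem p_CRT : T_CRT := by
  classical
  intro j t η ω v ht hv c hz
  obtain ⟨y, hy, hr⟩ := hz
  obtain ⟨-, q2, -⟩ := qb_small ht
  have q3 := qb_le_qbs hv (str t).length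
  have q4 := qb_bound v (str t).length
  have uniq : ∀ (s : ℕ) (p p' : Nw j × List Bool),
      Asks (orc (bitsOf η) (Wc j ω c)) v.1 (pair (str t) y) s (wq p.1.1.1 p.1.1.2 p.2) →
      Asks (orc (bitsOf η) (Wc j ω c)) v.1 (pair (str t) y) s (wq p'.1.1.1 p'.1.1.2 p'.2) →
      p = p' := by
    intro s p p' h1 h2
    have h6 := Pool.Agent.RelM.one _ _ _ _ _ _ h1 h2
    obtain ⟨e1, e2, e3⟩ := Pool.Agent.RelM.wq_inj h6
    exact Prod.ext (Subtype.ext (Prod.ext e1 e2)) e3
  refine ⟨(Finset.range (((str t).length + 2) ^ v.2.2)).biUnion fun s =>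
    if h : ∃ p : Nw j × List Bool,
      Asks (orc (bitsOf η) (Wc j ω c)) v.1 (pair (str t) y) s (wq p.1.1.1 p.1.1.2 p.2)
    then {h.choose} else ∅, ?_, ?_⟩
  · refine Finset.card_biUnion_le.trans ?_
    refine (Finset.sum_le_card_nsmul _ _ 1 fun s _ => ?_).trans ?_
    · split_ifs
      · simp
      · simp
    · rw [Finset.card_range, smul_eq_mul, mul_one]
      omega
  · intro c' hC
    refine ⟨y, hy, ?_⟩
    rw [Pool.Agent.RelM.loc (orc (bitsOf η) (Wc j ω c)) (orc (bitsOf η) (Wc j ω c')) v.1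
      (pair (str t) y) (((str t).length + 2) ^ v.2.2) (fun s hs q hq => ?_) _ le_rfl]
    · exact hr
    · have hl := ask_len hy hs hq
      have hd : ∀ p : Nw j × List Bool, q = wq p.1.1.1 p.1.1.2 p.2 →
          (c' p.1 = some p.2 ↔ c p.1 = some p.2) := by
        intro p hp
        refine hC p ?_
        rw [Finset.mem_biUnion]
        refine ⟨s, Finset.mem_range.2 hs, ?_⟩
        have h1 : ∃ p : Nw j × List Bool,
          Asks (orc (bitsOf η) (Wc j ω c)) v.1 (pair (str t) y) s
            (wq p.1.1.1 p.1.1.2 p.2) := ⟨p, by rw [← hp]; exact hq⟩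
        rw [dif_pos h1, Finset.mem_singleton]
        exact uniq s p _ (by rw [← hp]; exact hq) h1.choose_spec
      rw [Bool.eq_iff_iff]
      exact ⟨orc_imp (by omega) fun p h => (hd p h).2, orc_imp (by omega) fun p h => (hd p h).1⟩

end Pool.Agent.RelU
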