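import Pool.Agent.RelU.Targets

/-!
# Small products give small entropies
-/

set_option autoImplicit false

namespace Pool.Agent.RelU

theorem p_ENT : T_ENT := by
  intro δ hδ
  have h0 : ContinuousAt Real.binEntropy 0 := Real.binEntropy_continuous.continuousAt
  rw [Metric.continuousAt_iff] at h0
  obtain ⟨r, hr, h⟩ := h0 δ hδ
  have key : ∀ a : ℝ, 0 ≤ a → a ≤ 1 / 2 → a * (1 - a) ≤ r / 4 → Real.binEntropy a ≤ δ := by
    intro a h1 h2 h3
    have h4 : dist a 0 < r := by
      rw [Real.dist_eq, sub_zero, abs_of_nonneg h1]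
      nlinarith
    have h5 := h h4
    rw [Real.dist_eq, Real.binEntropy_zero, sub_zero] at h5
    exact (le_abs_self _).trans h5.le
  refine ⟨r / 4, by positivity, fun a h1 h2 h3 => ?_⟩
  rcases le_total a (1 / 2) with h4 | h4
  · exact key a h1 h4 h3
  · rw [← Real.binEntropy_one_sub]
    exact key (1 - a) (by linarith) (by linarith) (by linarith)

end Pool.Agent.RelU
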