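import Pool.Agent.RelU.MEAS

/-!
# The bit of a word is a fair coin
-/

set_option autoImplicit false

namespace Pool.Agent.RelU

open MeasureTheory Set
open scoped ENNReal
open Pool.Agent.RelM (str)
open Pool.Agent.RelO (lev)
open Pool.Agent.RelS (Z Rl Idx Om Dep fd)

namespace FAIR_

theorem key_len (ω : Om) (κ : ℕ) (x : List Bool) : (key ω κ x).length = lev κ x := by
  unfold key
  rw [List.length_map, List.length_range]

theorem rl (ω : Om) (κ : ℕ) (x : List Bool) : Rl (zo ω) κ x = ω (κ, x, [], 0) := by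
  classical
  unfold Rl
  cases h : ω (κ, x, [], 0)
  · refine decide_eq_false ?_
    rintro ⟨y, _, hy⟩
    unfold zo at hy
    rw [h, Bool.false_and] at hy
    exact Bool.false_ne_true hy
  · refine decide_eq_true ⟨key ω κ x, key_len ω κ x, ?_⟩
    unfold zo
    rw [h, Bool.true_and, decide_eq_true_eq]

end FAIR_

open FAIR_ in
theorem p_FAIR : T_FAIR := by
  intro κ t H b _ hH dH
  have hs : {ω | Rl (zo ω) κ (str t) = b} = {ω : Om | ω (κ, str t, [], 0) = b} := by
    ext ω
    show Rl (zo ω) κ (str t) = b ↔ ω (κ, str t, [], 0) = b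
    rw [rl]
  have hm : MeasurableSet {ω : Om | ω (κ, str t, [], 0) = b} := by
    refine fd (Set.finite_singleton ((κ, str t, [], 0) : Idx)) fun ω ω' h => ?_
    have h2 : ω (κ, str t, [], 0) = ω' (κ, str t, [], 0) := h _ rfl
    show ω (κ, str t, [], 0) = b ↔ ω' (κ, str t, [], 0) = b
    rw [h2]
  rw [hs, ← lintegral_indicator hm]
  have h1 : ∀ ω : Om, ({ω : Om | ω (κ, str t, [], 0) = b}).indicator H ω =
      ({ω : Om | ω (κ, str t, [], 0) = b}).indicator (1 : Om → ℝ≥0∞) ω * H ω := by
    intro ω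
    by_cases h : ω (κ, str t, [], 0) = b
    · rw [Set.indicator_of_mem (show ω ∈ {ω : Om | ω (κ, str t, [], 0) = b} from h),
        Set.indicator_of_mem (show ω ∈ {ω : Om | ω (κ, str t, [], 0) = b} from h),
        Pi.one_apply, one_mul]
    · rw [Set.indicator_of_notMem (show ω ∉ {ω : Om | ω (κ, str t, [], 0) = b} from h),
        Set.indicator_of_notMem (show ω ∉ {ω : Om | ω (κ, str t, [], 0) = b} from h),
        zero_mul]
  simp only [h1]
  have dF : Dep ({(κ, str t, [], 0)} : Set Idx)
      (({ω : Om | ω (κ, str t, [], 0) = b}).indicator (1 : Om → ℝ≥0∞)) := by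
    intro ω ω' h
    have h2 : ω (κ, str t, [], 0) = ω' (κ, str t, [], 0) := h _ rfl
    by_cases h3 : ω (κ, str t, [], 0) = b
    · rw [Set.indicator_of_mem (show ω ∈ {ω : Om | ω (κ, str t, [], 0) = b} from h3),
        Set.indicator_of_mem (show ω' ∈ {ω : Om | ω (κ, str t, [], 0) = b} from
          h2.symm.trans h3)]
      rfl
    · rw [Set.indicator_of_notMem (show ω ∉ {ω : Om | ω (κ, str t, [], 0) = b} from h3),
        Set.indicator_of_notMem (show ω' ∉ {ω : Om | ω (κ, str t, [], 0) = b} from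
          fun h4 => h3 (h2.trans h4))]
  have dG : Dep ({(κ, str t, [], 0)} : Set Idx)ᶜ H := by
    intro ω ω' h
    refine dH ω ω' fun a ha => h a ?_
    intro h2
    rw [Set.mem_singleton_iff] at h2
    subst h2
    exact ha.2 ⟨rfl, t, le_rfl, rfl⟩
  rw [indep (measurable_one.indicator hm) hH dF dG, lintegral_indicator_one hm, coin_one]

end Pool.Agent.RelU
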