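import Pool.Agent.RelU.Targets

/-!
# RelU, block FUB: the probability is the mean over the keys
-/

set_option autoImplicit false

namespace Pool.Agent.RelU

open Set

theorem p_FUB : T_FUB := by
  intro X K _ _ _ S
  classical
  unfold Pu Ey Pb
  rw [← Finset.sum_div, div_div, Fintype.card_prod, Nat.cast_mul, ← Nat.cast_sum]
  congr 2
  simp only [Finset.card_filter]
  rw [Fintype.sum_prod_type_right]
  rfl

end Pool.Agent.RelU
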