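import Pool.Agent.RelU.NN
import Pool.Agent.RelU.MEAS
import Pool.Agent.RelU.DENT
import Pool.Agent.RelM.HIT
import Pool.Agent.RelM.LOC

/-!
# Finding a hidden key
-/

set_option autoImplicit false

namespace Pool.Agent.RelU

open MeasureTheory Set
open scoped ENNReal
open Pool.Agent.RelM (Lang Instr Cfg step run Halts pair str pre wq sq0 sq1 Asks hq)
open Pool.Agent.RelO (lev levmono)
open Pool.Agent.RelS (Z Rl orcV orc Idx Om Dep mixP fd meas_of_dep ovis ocut bern)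

namespace HIT_

/-- Hidden pairs are expensive. -/
lemma hidden_ge (κ t : ℕ) {κ' : ℕ} {x' : List Bool}
    (h : ¬ SS κ t κ' x') : lev κ (str t) ≤ lev κ' x' := by
  by_cases h1 : lev κ' x' < nn (bl κ (str t))
  · have h2 : κ' = κ ∧ ∃ t', t ≤ t' ∧ x' = str t' := by
      by_contra h3
      exact h ⟨h1, h3⟩
    obtain ⟨rfl, t', ht, rfl⟩ := h2
    refine levmono _ _ _ ?_
    rw [Pool.Agent.RelM.strlen, Pool.Agent.RelM.strlen]
    exact Nat.log_mono_right (by omega)
  · have := (jjspec (lev κ (str t))).1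
    unfold bl at h1
    omega

lemma bl_succ (κ t : ℕ) (h0 : nn 0 ≤ lev κ (str t)) :
    ∃ J, bl κ (str t) = J + 1 ∧ nn J ≤ lev κ (str t) ∧ lev κ (str t) < nn (J + 1) := by
  obtain ⟨h1, h2⟩ := jjspec (lev κ (str t))
  have hpos : jj (lev κ (str t)) ≠ 0 := by
    intro h
    rw [h] at h1
    omega
  refine ⟨jj (lev κ (str t)) - 1, ?_, h2 _ (by omega), ?_⟩
  · unfold bl
    omega
  · rw [show jj (lev κ (str t)) - 1 + 1 = jj (lev κ (str t)) by omega]
    exact h1

/-- The coins of the pair κ, x. -/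
def pc (κ : ℕ) (x : List Bool) : Set Idx := {a | a.1 = κ ∧ a.2.1 = x}

/-- The hidden oracle depends only on the visible coins. -/
lemma ov_dep (κ t : ℕ) (h0 : nn 0 ≤ lev κ (str t)) {ω ω' : Om}
    (h : ∀ a ∈ Vis κ t, ω a = ω' a) : ov κ t ω = ov κ t ω' := by
  obtain ⟨J, hJ, hJ1, hJ2⟩ := bl_succ κ t h0
  have hh : hs ω (J + 1) = hs ω' (J + 1) := by
    refine hsdep J ω ω' fun a ha => h a ⟨?_, ?_⟩
    · rw [hJ]
      exact old_mono (Nat.le_succ J) ha
    · rintro ⟨h1, t', ht', h2⟩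
      have h3 : lev a.1 a.2.1 < nn J := ha.1
      rw [h1, h2] at h3
      have h4 : lev κ (str t) ≤ lev κ (str t') := by
        refine levmono _ _ _ ?_
        rw [Pool.Agent.RelM.strlen, Pool.Agent.RelM.strlen]
        exact Nat.log_mono_right (by omega)
      omega
  funext q
  unfold ov
  rw [hJ, hh]
  refine ovis _ _ _ _ (fun κ₁ x₁ y₁ hs₁ _ => ?_) q
  refine zo_congr (fun i hi => h _ ⟨old_coin hs₁.1 hi, ?_⟩) y₁
  rintro ⟨h1, t', ht', h2⟩
  exact hs₁.2 ⟨h1, t', ht', h2⟩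

/-- The event that `wq κ' x' y` with a hidden pair is asked at step `s`. -/
def A (κ t : ℕ) (Pr : List Instr) (X : Om → List Bool) (s : ℕ)
    (i : ℕ × List Bool × List Bool) : Set Om :=
  {ω | ¬ SS κ t i.1 i.2.1 ∧ Asks (ov κ t ω) Pr (X ω) s (wq i.1 i.2.1 i.2.2)}

lemma visfin (κ t : ℕ) : (Vis κ t).Finite :=
  (oldfin _).subset fun _ h => h.1

lemma A_iff (κ t : ℕ) (h0 : nn 0 ≤ lev κ (str t)) {Pr : List Instr}
    {X : Om → List Bool} (hX : Dep (Vis κ t) X) (s : ℕ) (i : ℕ × List Bool × List Bool)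
    {ω ω' : Om} (h : ∀ a ∈ Vis κ t, ω a = ω' a) :
    ω ∈ A κ t Pr X s i ↔ ω' ∈ A κ t Pr X s i := by
  show (_ ∧ Asks (ov κ t ω) Pr (X ω) s _) ↔ (_ ∧ Asks (ov κ t ω') Pr (X ω') s _)
  rw [ov_dep κ t h0 h, hX ω ω' h]

lemma A_meas (κ t : ℕ) (h0 : nn 0 ≤ lev κ (str t)) {Pr : List Instr}
    {X : Om → List Bool} (hX : Dep (Vis κ t) X) (s : ℕ) (i : ℕ × List Bool × List Bool) :
    MeasurableSet (A κ t Pr X s i) :=
  fd (visfin κ t) fun _ _ h => A_iff κ t h0 hX s i h

/-- The coins of a hidden pair are not visible. -/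
lemma hidden_notMem (κ t : ℕ) {κ' : ℕ} {x' : List Bool} (hS : ¬ SS κ t κ' x')
    {a : Idx} (ha : a ∈ Vis κ t) : a ∉ pc κ' x' := by
  rintro ⟨h1, h2⟩
  apply hS
  rw [← h1, ← h2]
  exact ⟨ha.1.1, fun h => ha.2 h⟩

/-- The coins of the key. -/
def kc (κ' : ℕ) (x' : List Bool) : Finset Idx :=
  (Finset.range (lev κ' x')).image fun i => ((κ', x', [], i + 1) : Idx)

lemma kc_card (κ' : ℕ) (x' : List Bool) : (kc κ' x').card = lev κ' x' := by
  unfold kc
  rw [Finset.card_image_of_injective, Finset.card_range]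
  intro i j h
  have := congrArg (fun a : Idx => a.2.2.2) h
  simpa using this

/-- The values of the coins of the key `y`. -/
def kv (y : List Bool) : Idx → Bool := fun a => y.getD (a.2.2.2 - 1) false

lemma key_cyl {ω : Om} {κ' : ℕ} {x' y : List Bool} (h : zo ω κ' x' y = true) :
    ω ∈ {ω : Om | ∀ a ∈ kc κ' x', ω a = kv y a} := by
  unfold zo at h
  rw [Bool.and_eq_true, decide_eq_true_eq] at h
  intro a ha
  unfold kc at ha
  obtain ⟨i, hi, rfl⟩ := Finset.mem_image.1 ha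
  have hi' := Finset.mem_range.1 hi
  unfold kv
  rw [h.2]
  show ω (κ', x', [], i + 1) = (key ω κ' x').getD (i + 1 - 1) false
  rw [Nat.add_sub_cancel, List.getD_eq_getElem _ _ (by rw [key_length]; exact hi')]
  unfold key
  rw [List.getElem_map, List.getElem_range]

/-- A hidden key is hit with small probability. -/
lemma hit_one (κ t : ℕ) (h0 : nn 0 ≤ lev κ (str t)) {Pr : List Instr}
    {X : Om → List Bool} (hX : Dep (Vis κ t) X) (s : ℕ) (i : ℕ × List Bool × List Bool) :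
    coin (A κ t Pr X s i ∩ {ω | zo ω i.1 i.2.1 i.2.2 = true}) ≤
      (2⁻¹ : ℝ≥0∞) ^ (lev κ (str t) / 2) * coin (A κ t Pr X s i) := by
  obtain ⟨κ', x', y⟩ := i
  by_cases hS : SS κ t κ' x'
  · have : A κ t Pr X s (κ', x', y) = ∅ := by
      ext ω
      constructor
      · intro h
        exact (h.1 hS).elim
      · intro h
        exact h.elim
    rw [this]
    simp
  have hge := hidden_ge κ t hS
  let C : Set Om := {ω : Om | ∀ a ∈ kc κ' x', ω a = kv y a}
  have hAm := A_meas κ t h0 (Pr := Pr) hX s (κ', x', y)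
  have hCiff : ∀ ω ω' : Om, (∀ a ∈ (kc κ' x' : Set Idx), ω a = ω' a) → (ω ∈ C ↔ ω' ∈ C) := by
    intro ω ω' h
    show (∀ a ∈ kc κ' x', ω a = kv y a) ↔ (∀ a ∈ kc κ' x', ω' a = kv y a)
    refine forall₂_congr fun a ha => ?_
    rw [h a ha]
  have hCm : MeasurableSet C := fd (Finset.finite_toSet _) hCiff
  have hsubpc : ∀ a ∈ (kc κ' x' : Set Idx), a ∈ pc κ' x' := by
    intro a ha
    obtain ⟨i, _, rfl⟩ := Finset.mem_image.1 (show a ∈ kc κ' x' from ha)
    exact ⟨rfl, rfl⟩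
  have hCd : Dep (pc κ' x') (C.indicator (1 : Om → ℝ≥0∞)) := by
    intro ω ω' h
    have hC := hCiff ω ω' fun a ha => h a (hsubpc a ha)
    by_cases hω : ω ∈ C
    · rw [Set.indicator_of_mem hω, Set.indicator_of_mem (hC.1 hω)]
      rfl
    · rw [Set.indicator_of_notMem hω, Set.indicator_of_notMem fun h => hω (hC.2 h)]
  have hAd : Dep (pc κ' x')ᶜ ((A κ t Pr X s (κ', x', y)).indicator (1 : Om → ℝ≥0∞)) := by
    intro ω ω' h
    have hA : ω ∈ A κ t Pr X s (κ', x', y) ↔ ω' ∈ A κ t Pr X s (κ', x', y) :=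
      A_iff κ t h0 hX s _ fun a ha => h a (hidden_notMem κ t hS ha)
    by_cases hω : ω ∈ A κ t Pr X s (κ', x', y)
    · rw [Set.indicator_of_mem hω, Set.indicator_of_mem (hA.1 hω)]
      rfl
    · rw [Set.indicator_of_notMem hω, Set.indicator_of_notMem fun h => hω (hA.2 h)]
  have hsub : A κ t Pr X s (κ', x', y) ∩ {ω | zo ω κ' x' y = true} ⊆
      A κ t Pr X s (κ', x', y) ∩ C := by
    rintro ω ⟨hA, hz⟩
    exact ⟨hA, key_cyl hz⟩
  have hi := indep (p := pc κ' x') (F := C.indicator 1)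
    (G := (A κ t Pr X s (κ', x', y)).indicator 1)
    (measurable_one.indicator hCm) (measurable_one.indicator hAm) hCd hAd
  rw [lintegral_indicator_one hCm, lintegral_indicator_one hAm] at hi
  have hmul : ∀ ω : Om, C.indicator (1 : Om → ℝ≥0∞) ω *
      (A κ t Pr X s (κ', x', y)).indicator 1 ω =
      (A κ t Pr X s (κ', x', y) ∩ C).indicator 1 ω := by
    intro ω
    by_cases ha : ω ∈ A κ t Pr X s (κ', x', y) <;> by_cases hb : ω ∈ C <;>
      simp [Set.indicator, ha, hb]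
  simp only [hmul] at hi
  rw [lintegral_indicator_one (hAm.inter hCm)] at hi
  have hCc : coin C = (2⁻¹ : ℝ≥0∞) ^ lev κ' x' := by
    have := coin_cyl (kc κ' x') (kv y)
    rw [kc_card] at this
    exact this
  calc coin (A κ t Pr X s (κ', x', y) ∩ {ω | zo ω κ' x' y = true})
      ≤ coin (A κ t Pr X s (κ', x', y) ∩ C) := measure_mono hsub
    _ = (2⁻¹ : ℝ≥0∞) ^ lev κ' x' * coin (A κ t Pr X s (κ', x', y)) := by rw [hi, hCc]
    _ ≤ (2⁻¹ : ℝ≥0∞) ^ (lev κ (str t) / 2) * coin (A κ t Pr X s (κ', x', y)) := by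
        refine mul_le_mul' ?_ le_rfl
        exact pow_le_pow_right_of_le_one' (ENNReal.inv_le_one.2 (by norm_num)) (by omega)

end HIT_

open HIT_ in
/-- Finding a hidden key. -/
theorem p_HIT : T_HIT := by
  intro κ t Pr X τ hm0 hXd hXl
  set m := lev κ (str t) with hm
  -- the events that a hidden key is asked
  have hsub : {ω | ∃ s ≤ τ, run (oo ω) Pr (X ω) s ≠ run (ov κ t ω) Pr (X ω) s} ⊆
      ⋃ s ∈ Finset.range τ, ⋃ i : ℕ × List Bool × List Bool,
        (A κ t Pr X s i ∩ {ω | zo ω i.1 i.2.1 i.2.2 = true}) := by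
    intro ω hω
    by_contra hcon
    simp only [Set.mem_iUnion, Finset.mem_range, not_exists, exists_prop, not_and] at hcon
    obtain ⟨s, hsτ, hne⟩ := hω
    apply hne
    refine Pool.Agent.RelM.loc _ _ Pr (X ω) τ (fun s' hs' q hq => ?_) s hsτ
    by_contra hne'
    have hlen := Pool.Agent.RelM.len _ _ _ _ _ hq
    have hXl' := hXl ω
    rcases ocut (SS κ t) (bitsOf (hf ω)) (bitsOf (hs ω (bl κ (str t))))
      (zo ω) (zo ω) (fun _ _ _ _ _ => rfl) q
      (fun h => hne' h.symm) with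
      ⟨κ', x', y', hS, hy', hq', hz'⟩ | ⟨κ', x', m', hS, hq', hm'⟩ | ⟨u, hq', hu⟩
    · refine hcon s' hs' (κ', x', y') ⟨⟨hS, ?_⟩, hz'⟩
      rw [← hq']
      exact hq
    · have h2 := Pool.Agent.RelM.HitJob.le_length_sq1 κ' x' m'
      rw [← hq'] at h2
      have h4 : 2 ^ m ≤ 2 ^ lev κ' x' :=
        Nat.pow_le_pow_right (by norm_num) (hidden_ge κ t hS)
      omega
    · apply hu
      refine bloc _ _ u fun j hj => ?_
      have h5 : j < bl κ (str t) := by
        by_contra h6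
        have h7 : nn (bl κ (str t)) ≤ nn j := nnmono.monotone (by omega)
        have h10 : m < nn (bl κ (str t)) := (jjspec m).1
        have h8 : 2 ^ m ≤ 2 ^ nn j := Nat.pow_le_pow_right (by norm_num) (by omega)
        have h9 : q.length = u.length + 2 := by rw [hq']; simp
        omega
      exact (hsval ω (bl κ (str t)) j h5).symm
  have hdisj : ∀ s, Pairwise (Function.onFun Disjoint (A κ t Pr X s)) := by
    intro s i j hij
    rw [Function.onFun, Set.disjoint_left]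
    rintro ω ⟨_, h1⟩ ⟨_, h2⟩
    apply hij
    obtain ⟨e1, e2, e3⟩ := Pool.Agent.RelM.HitJob.wq_inj' (Pool.Agent.RelM.one _ _ _ _ _ _ h1 h2)
    exact Prod.ext e1 (Prod.ext e2 e3)
  calc coin {ω | ∃ s ≤ τ, run (oo ω) Pr (X ω) s ≠ run (ov κ t ω) Pr (X ω) s}
      ≤ coin (⋃ s ∈ Finset.range τ, ⋃ i : ℕ × List Bool × List Bool,
        (A κ t Pr X s i ∩ {ω | zo ω i.1 i.2.1 i.2.2 = true})) := measure_mono hsub
    _ ≤ ∑ s ∈ Finset.range τ, coin (⋃ i : ℕ × List Bool × List Bool,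
        (A κ t Pr X s i ∩ {ω | zo ω i.1 i.2.1 i.2.2 = true})) :=
        measure_biUnion_finset_le _ _
    _ ≤ ∑ _s ∈ Finset.range τ, (2⁻¹ : ℝ≥0∞) ^ (m / 2) := by
        refine Finset.sum_le_sum fun s _ => ?_
        calc coin (⋃ i : ℕ × List Bool × List Bool,
              (A κ t Pr X s i ∩ {ω | zo ω i.1 i.2.1 i.2.2 = true}))
            ≤ ∑' i : ℕ × List Bool × List Bool,
              coin (A κ t Pr X s i ∩ {ω | zo ω i.1 i.2.1 i.2.2 = true}) :=
              measure_iUnion_le _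
          _ ≤ ∑' i, (2⁻¹ : ℝ≥0∞) ^ (m / 2) * coin (A κ t Pr X s i) :=
              ENNReal.tsum_le_tsum fun i => hit_one κ t hm0 hXd s i
          _ = (2⁻¹ : ℝ≥0∞) ^ (m / 2) * coin (⋃ i, A κ t Pr X s i) := by
              rw [ENNReal.tsum_mul_left, measure_iUnion (hdisj s) fun i =>
                A_meas κ t hm0 hXd s i]
          _ ≤ (2⁻¹ : ℝ≥0∞) ^ (m / 2) * 1 := by
              gcongr
              exact prob_le_one
          _ = (2⁻¹ : ℝ≥0∞) ^ (m / 2) := mul_one _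
    _ = τ * (2⁻¹ : ℝ≥0∞) ^ (m / 2) := by
        rw [Finset.sum_const, Finset.card_range, nsmul_eq_mul]

end Pool.Agent.RelU
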