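import Pool.Agent.RelU.Targets
import Mathlib.Combinatorics.SetFamily.HarrisKleitman

/-!
# RelU, HK: the inequality of Harris and Kleitman for sets of presence bits
-/

set_option autoImplicit false

namespace Pool.Agent.RelU

namespace HK_

open Classical in
/-- The set of a vector of bits. -/
noncomputable def phi {X : Type} [Fintype X] (B : X → Bool) : Finset X :=
  Finset.univ.filter fun x => B x = true

open Classical in
/-- The family of sets. -/
noncomputable def fam {X : Type} [Fintype X] (H : Set (X → Bool)) : Finset (Finset X) :=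
  (Finset.univ.filter fun B : X → Bool => B ∈ H).image phi

theorem mem_phi {X : Type} [Fintype X] (B : X → Bool) (x : X) : x ∈ phi B ↔ B x = true := by
  simp [phi]

theorem phi_inj {X : Type} [Fintype X] : Function.Injective (phi : (X → Bool) → Finset X) := by
  intro B B' h
  funext x
  have h1 : x ∈ phi B ↔ x ∈ phi B' := by rw [h]
  rw [mem_phi, mem_phi] at h1
  exact Bool.eq_iff_iff.2 h1

open Classical in
theorem card_fam {X : Type} [Fintype X] (H : Set (X → Bool)) : (fam H).card =
    (Finset.univ.filter fun B : X → Bool => B ∈ H).card := by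
  unfold fam
  rw [Finset.card_image_of_injective _ phi_inj]

theorem mem_fam {X : Type} [Fintype X] {H : Set (X → Bool)} {s : Finset X} :
    s ∈ fam H ↔ ∃ B ∈ H, phi B = s := by
  classical
  unfold fam
  rw [Finset.mem_image]
  constructor
  · rintro ⟨B, hB, rfl⟩
    exact ⟨B, (Finset.mem_filter.1 hB).2, rfl⟩
  · rintro ⟨B, hB, rfl⟩
    exact ⟨B, Finset.mem_filter.2 ⟨Finset.mem_univ _, hB⟩, rfl⟩

theorem up_fam {X : Type} [Fintype X] {H : Set (X → Bool)}
    (hH : ∀ B B' : X → Bool, B ∈ H → (∀ x, B x = true → B' x = true) → B' ∈ H) :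
    IsUpperSet ((fam H : Finset (Finset X)) : Set (Finset X)) := by
  classical
  intro s t hst hs
  obtain ⟨B, hB, rfl⟩ := mem_fam.1 (Finset.mem_coe.1 hs)
  refine Finset.mem_coe.2 (mem_fam.2 ⟨fun x => decide (x ∈ t), hH B _ hB ?_, ?_⟩)
  · intro x hx
    exact decide_eq_true (hst ((mem_phi B x).2 hx))
  · ext x
    rw [mem_phi, decide_eq_true_eq]

theorem inter_fam {X : Type} [Fintype X] [DecidableEq X] (F G : Set (X → Bool)) :
    fam F ∩ fam G = fam (F ∩ G) := by
  ext s
  rw [Finset.mem_inter, mem_fam, mem_fam, mem_fam]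
  constructor
  · rintro ⟨⟨B, hB, h1⟩, ⟨B', hB', h2⟩⟩
    have : B' = B := phi_inj (h2.trans h1.symm)
    rw [this] at hB'
    exact ⟨B, ⟨hB, hB'⟩, h1⟩
  · rintro ⟨B, hB, h1⟩
    exact ⟨⟨B, hB.1, h1⟩, ⟨B, hB.2, h1⟩⟩

end HK_

open HK_ in
/-- **HK** -/
theorem p_HK : T_HK := by
  classical
  intro X _ F G hF hG
  have key := (up_fam hF).le_card_inter_finset (up_fam hG)
  rw [inter_fam] at key
  have hP : ∀ H : Set (X → Bool), Pb H = ((fam H).card : ℝ) / (2 : ℝ) ^ Fintype.card X := by
    intro H
    unfold Pb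
    rw [card_fam]
    have e : Fintype.card (X → Bool) = 2 ^ Fintype.card X := by
      rw [Fintype.card_fun, Fintype.card_bool]
    congr 1
    have e' : ((2 ^ Fintype.card X : ℕ) : ℝ) = (2 : ℝ) ^ Fintype.card X := by push_cast; rfl
    rw [← e', ← e]
  rw [hP, hP, hP]
  have h0 : (0 : ℝ) < 2 ^ Fintype.card X := by positivity
  have hk : ((fam F).card : ℝ) * (fam G).card ≤ 2 ^ Fintype.card X * (fam (F ∩ G)).card := by
    exact_mod_cast key
  rw [div_mul_div_comm, div_le_div_iff₀ (by positivity) h0]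
  nlinarith

end Pool.Agent.RelU
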