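import Pool.Agent.RelU.ACC

/-!
# The machines of a stage see a configuration
-/

set_option autoImplicit false

namespace Pool.Agent.RelU

open MeasureTheory Set
open Pool.Agent.RelM (Lang Instr Cfg run Halts pair triple str pre hq wq sq0 sq1 Asks code qb)
open Pool.Agent.RelO (lev st)
open Pool.Agent.RelS (Z Rl orcV orc acc Idx Om Dep mixP mixP_pos mixP_neg)

namespace LNK_

/-- The pairs with old coins. -/
theorem old_part {j κ : ℕ} {x : List Bool} (ω τ : Om) (h : lev κ x < nn j) (y : List Bool) :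
    zo (mixP (Old j) ω τ) κ x y = zo ω κ x y :=
  zo_congr (fun _ hi => mixP_pos (old_coin h hi)) y

/-- The coins of the new pairs. -/
theorem new_coin {j κ : ℕ} {x : List Bool} (ω τ : Om) (h : nn j ≤ lev κ x) (i : ℕ) :
    mixP (Old j) ω τ (κ, x, [], i) = τ (κ, x, [], i) :=
  mixP_neg fun h1 => absurd h1.1 (not_lt.2 h)

/-- The keys of the new pairs. -/
theorem new_key {j κ : ℕ} {x : List Bool} (ω τ : Om)
    (h : nn j ≤ lev κ x ∧ lev κ x < nn (j + 1)) :
    key (mixP (Old j) ω τ) κ x =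
      ek j ⟨(κ, x), h⟩ (fun i : Fin (nn (j + 1)) => τ (κ, x, [], i.1 + 1)) := by
  unfold key ek
  refine List.map_congr_left fun i hi => ?_
  have h1 := List.mem_range.1 hi
  rw [new_coin ω τ h.1, dif_pos (h1.trans h.2)]

/-- The new pairs. -/
theorem new_part {j κ : ℕ} {x : List Bool} (ω τ : Om)
    (h : nn j ≤ lev κ x ∧ lev κ x < nn (j + 1)) (y : List Bool) :
    zo (mixP (Old j) ω τ) κ x y = decide (cfg (ek j) (fun x => τ (x.1.1, x.1.2, [], 0))
      (fun x (i : Fin (nn (j + 1))) => τ (x.1.1, x.1.2, [], i.1 + 1)) ⟨(κ, x), h⟩ = some y) := by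
  unfold zo cfg
  rw [new_key ω τ h, new_coin ω τ h.1, Bool.eq_iff_iff]
  simp only [Bool.and_eq_true, decide_eq_true_eq]
  by_cases hb : τ (κ, x, [], 0) = true
  · rw [if_pos hb, Option.some_inj]
    exact ⟨fun h1 => h1.2.symm, fun h1 => ⟨hb, h1.symm⟩⟩
  · rw [if_neg hb]
    exact ⟨fun h1 => absurd h1.1 hb, fun h1 => absurd h1 (by simp)⟩

end LNK_

open LNK_ in
theorem p_LNK : T_LNK := by
  intro j t η ω τ v ht hv
  show acc (orc (bitsOf η) (zo (mixP (Old j) ω τ))) v (str t) ↔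
    acc (orc (bitsOf η) (Wc j ω _)) v (str t)
  refine acc_loc ht hv (fun _ _ => rfl) fun κ x y h1 _ => ?_
  unfold Wc
  by_cases h2 : lev κ x < nn j
  · rw [if_pos h2]
    exact old_part ω τ h2 y
  · have h3 : nn j ≤ lev κ x ∧ lev κ x < nn (j + 1) := ⟨not_lt.1 h2, h1⟩
    rw [if_neg h2, dif_pos h3]
    exact new_part ω τ h3 y

end Pool.Agent.RelU
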