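import Pool.Agent.RelU.Targets

/-!
# NC: the near-constant lemma
-/

set_option autoImplicit false

namespace Pool.Agent.RelU

namespace NC_

section

variable {α : Type} [Fintype α]

open Classical in
/-- The probability of a set. -/
noncomputable def Pg (S : Set α) : ℝ :=
  ((Finset.univ.filter fun p : α => p ∈ S).card : ℝ) / Fintype.card α

lemma Pg_nonneg (S : Set α) : 0 ≤ Pg S := by
  unfold Pg
  positivity

lemma Pg_mono {S T : Set α} (h : S ⊆ T) : Pg S ≤ Pg T := by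
  classical
  unfold Pg
  refine div_le_div_of_nonneg_right ?_ (Nat.cast_nonneg _)
  refine Nat.cast_le.2 (Finset.card_le_card fun x hx => ?_)
  exact Finset.mem_filter.2 ⟨Finset.mem_univ _, h (Finset.mem_filter.1 hx).2⟩

lemma Pg_le_one (S : Set α) : Pg S ≤ 1 := by
  classical
  unfold Pg
  refine div_le_one_of_le₀ ?_ (Nat.cast_nonneg _)
  exact_mod_cast Finset.card_le_univ _

lemma Pg_union_le (S T : Set α) : Pg (S ∪ T) ≤ Pg S + Pg T := by
  classical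
  unfold Pg
  rw [← add_div]
  refine div_le_div_of_nonneg_right ?_ (Nat.cast_nonneg _)
  rw [← Nat.cast_add]
  refine Nat.cast_le.2 (le_trans (Finset.card_le_card fun x hx => ?_)
    (Finset.card_union_le _ _))
  have hx' : x ∈ S ∨ x ∈ T := by simpa using hx
  rcases hx' with h | h
  · exact Finset.mem_union_left _ (by simpa using h)
  · exact Finset.mem_union_right _ (by simpa using h)

lemma Pg_add_le {S T U : Set α} (hd : ∀ x, x ∈ S → x ∉ T) (hS : S ⊆ U) (hT : T ⊆ U) :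
    Pg S + Pg T ≤ Pg U := by
  classical
  unfold Pg
  rw [← add_div]
  refine div_le_div_of_nonneg_right ?_ (Nat.cast_nonneg _)
  rw [← Nat.cast_add, ← Finset.card_union_of_disjoint]
  · refine Nat.cast_le.2 (Finset.card_le_card fun x hx => ?_)
    rcases Finset.mem_union.1 hx with h | h
    · exact Finset.mem_filter.2 ⟨Finset.mem_univ _, hS (Finset.mem_filter.1 h).2⟩
    · exact Finset.mem_filter.2 ⟨Finset.mem_univ _, hT (Finset.mem_filter.1 h).2⟩
  · rw [Finset.disjoint_left]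
    intro x hx hx'
    exact hd x (Finset.mem_filter.1 hx).2 (Finset.mem_filter.1 hx').2

lemma Pg_univ [Nonempty α] : Pg (Set.univ : Set α) = 1 := by
  classical
  unfold Pg
  have h : ∀ inst : DecidablePred fun p : α => p ∈ (Set.univ : Set α),
      (@Finset.filter α (fun p : α => p ∈ (Set.univ : Set α)) inst Finset.univ) =
        Finset.univ := by
    intro inst
    ext x
    simp
  rw [h, Finset.card_univ]
  exact div_self (Nat.cast_ne_zero.2 Fintype.card_ne_zero)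

end

section

variable {X K V : Type} [Fintype X] [Fintype K]

open Classical in
lemma Pu_eq (S : Set ((X → Bool) × (X → K))) : Pu S = Pg S := rfl

open Classical in
lemma Pb_eq (S : Set (X → Bool)) : Pb S = Pg S := rfl

lemma Ey_mono {f g : (X → K) → ℝ} (h : ∀ Y, f Y ≤ g Y) : Ey f ≤ Ey g := by
  classical
  unfold Ey
  exact div_le_div_of_nonneg_right (Finset.sum_le_sum fun Y _ => h Y) (Nat.cast_nonneg _)

lemma Ey_add (f g : (X → K) → ℝ) : Ey (fun Y => f Y + g Y) = Ey f + Ey g := by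
  classical
  unfold Ey
  rw [Finset.sum_add_distrib, add_div]

lemma cfg_mono (e : X → K → V) (Y : X → K) {B B' : X → Bool}
    (h : ∀ x, B x = true → B' x = true) {x : X} {v : V} (hx : cfg e B Y x = some v) :
    cfg e B' Y x = some v := by
  unfold cfg at hx ⊢
  by_cases hB : B x = true
  · rw [if_pos hB] at hx
    rw [if_pos (h x hB)]
    exact hx
  · rw [if_neg hB] at hx
    exact absurd hx (by simp)

lemma up_sub (A : Set (X → Option V)) : A ⊆ Up A := fun c hc => ⟨c, hc, fun _ _ h => h⟩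

lemma up_upper (e : X → K → V) (A : Set (X → Option V)) (Y : X → K) (B B' : X → Bool)
    (hB : cfg e B Y ∈ Up A) (h : ∀ x, B x = true → B' x = true) : cfg e B' Y ∈ Up A := by
  obtain ⟨c0, hc0, h1⟩ := hB
  exact ⟨c0, hc0, fun x v hx => cfg_mono e Y h (h1 x v hx)⟩

lemma cfg_dep (e : X → K → V) (B : X → Bool) {Y Y' : X → K}
    (h : ∀ x, B x = true → Y x = Y' x) : cfg e B Y = cfg e B Y' := by
  funext x
  unfold cfg
  by_cases hB : B x = true
  · rw [if_pos hB, if_pos hB, h x hB]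
  · rw [if_neg hB, if_neg hB]

end

end NC_

open NC_ in
theorem p_NC_of (hHK : T_HK) (hFUB : T_FUB) (hCH : T_CH) (hUC : T_UC) : T_NC := by
  classical
  intro X K V _ _ _ N q ε e A₁ A₂ hN hth hc1 hc2 hε
  have hN' : (0 : ℝ) < N := by exact_mod_cast hN
  -- the sets
  set S1 : Set ((X → Bool) × (X → K)) := {p | cfg e p.1 p.2 ∈ Up A₁} with hS1
  set S2 : Set ((X → Bool) × (X → K)) := {p | cfg e p.1 p.2 ∈ Up A₂} with hS2
  set T1 : Set ((X → Bool) × (X → K)) := {p | cfg e p.1 p.2 ∈ A₁} with hT1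
  set T2 : Set ((X → Bool) × (X → K)) := {p | cfg e p.1 p.2 ∈ A₂} with hT2
  have hTS1 : T1 ⊆ S1 := fun p hp => up_sub A₁ hp
  have hTS2 : T2 ⊆ S2 := fun p hp => up_sub A₂ hp
  have hu1 : Pg (S1 \ T1) ≤ q / N := by
    rw [le_div_iff₀ hN', mul_comm]
    exact hUC X K V N q e A₁ hth hc1
  have hu2 : Pg (S2 \ T2) ≤ q / N := by
    rw [le_div_iff₀ hN', mul_comm]
    exact hUC X K V N q e A₂ hth hc2
  -- both or none
  have hb : Pg (S1 ∩ S2) + Pg (S1 ∪ S2)ᶜ ≤ ε + 2 * (q / N) := by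
    have h1 : S1 ∩ S2 ⊆ (T1 ∩ T2) ∪ ((S1 \ T1) ∪ (S2 \ T2)) := by
      rintro p ⟨h2, h3⟩
      by_cases h4 : p ∈ T1
      · by_cases h5 : p ∈ T2
        · exact Or.inl ⟨h4, h5⟩
        · exact Or.inr (Or.inr ⟨h3, h5⟩)
      · exact Or.inr (Or.inl ⟨h2, h4⟩)
    have h2 : Pg (S1 ∩ S2) ≤ Pg (T1 ∩ T2) + (Pg (S1 \ T1) + Pg (S2 \ T2)) :=
      (Pg_mono h1).trans ((Pg_union_le _ _).trans
        (add_le_add le_rfl (Pg_union_le _ _)))
    have h3 : (S1 ∪ S2)ᶜ ⊆ (T1 ∪ T2)ᶜ := by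
      intro p hp hp'
      rcases hp' with h | h
      · exact hp (Or.inl (hTS1 h))
      · exact hp (Or.inr (hTS2 h))
    have h4 : Pg (T1 ∩ T2) + Pg (T1 ∪ T2)ᶜ ≤
        Pg {p : (X → Bool) × (X → K) | cfg e p.1 p.2 ∈ A₁ ↔ cfg e p.1 p.2 ∈ A₂} := by
      refine Pg_add_le ?_ ?_ ?_
      · rintro p ⟨h5, _⟩ h6
        exact h6 (Or.inl h5)
      · rintro p ⟨h5, h6⟩
        exact ⟨fun _ => h6, fun _ => h5⟩
      · intro p hp
        exact ⟨fun h => absurd (Or.inl h) hp, fun h => absurd (Or.inr h) hp⟩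
    have h5 : Pg {p : (X → Bool) × (X → K) | cfg e p.1 p.2 ∈ A₁ ↔ cfg e p.1 p.2 ∈ A₂} ≤ ε :=
      hε
    have h6 := Pg_mono h3
    linarith
  -- the conditional probabilities
  have hY : ∀ Y : X → K, Pb {B | (B, Y) ∈ S1} * (1 - Pb {B | (B, Y) ∈ S1}) ≤
      Pb {B | (B, Y) ∈ S1 ∩ S2} + Pb {B | (B, Y) ∈ (S1 ∪ S2)ᶜ} := by
    intro Y
    have h1 : Pb {B | (B, Y) ∈ S1} * Pb {B | (B, Y) ∈ S2} ≤ Pb {B | (B, Y) ∈ S1 ∩ S2} :=
      hHK X {B | (B, Y) ∈ S1} {B | (B, Y) ∈ S2}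
        (fun B B' hB h => up_upper e A₁ Y B B' hB h)
        (fun B B' hB h => up_upper e A₂ Y B B' hB h)
    have h2 : (1 : ℝ) ≤ Pb {B | (B, Y) ∈ S1} + (Pb {B | (B, Y) ∈ S2} +
        Pb {B | (B, Y) ∈ (S1 ∪ S2)ᶜ}) := by
      rw [Pb_eq, Pb_eq, Pb_eq, ← Pg_univ (α := X → Bool)]
      refine le_trans (Pg_mono ?_) ((Pg_union_le {B | (B, Y) ∈ S1} ({B | (B, Y) ∈ S2} ∪
        {B | (B, Y) ∈ (S1 ∪ S2)ᶜ})).trans (add_le_add le_rfl (Pg_union_le _ _)))
      intro B _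
      by_cases h3 : (B, Y) ∈ S1
      · exact Or.inl h3
      · by_cases h4 : (B, Y) ∈ S2
        · exact Or.inr (Or.inl h4)
        · exact Or.inr (Or.inr fun h => h.elim h3 h4)
    have h3 : 0 ≤ Pb {B | (B, Y) ∈ S1} := Pg_nonneg _
    have h4 : Pb {B | (B, Y) ∈ S1} ≤ 1 := Pg_le_one _
    have h5 : 0 ≤ Pb {B | (B, Y) ∈ (S1 ∪ S2)ᶜ} := Pg_nonneg _
    nlinarith
  have hE : (Ey fun Y : X → K => Pb {B | (B, Y) ∈ S1} * (1 - Pb {B | (B, Y) ∈ S1})) ≤
      Pg (S1 ∩ S2) + Pg (S1 ∪ S2)ᶜ := by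
    refine (Ey_mono hY).trans (le_of_eq ?_)
    rw [Ey_add, ← hFUB, ← hFUB, Pu_eq, Pu_eq]
  have hC := hCH X K S1 (fun B Y Y' h => by
    change cfg e B Y ∈ Up A₁ ↔ cfg e B Y' ∈ Up A₁
    rw [cfg_dep e B h])
  -- the end
  have h1 : Pu S1 * (1 - Pu S1) ≤ 4 * ε + 8 * (q / N) := by linarith
  have h2 : Pu T1 ≤ Pu S1 := Pg_mono hTS1
  have h3 : Pu S1 ≤ Pu T1 + q / N := by
    have h4 : S1 ⊆ T1 ∪ (S1 \ T1) := by
      intro p hp
      by_cases h5 : p ∈ T1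
      · exact Or.inl h5
      · exact Or.inr ⟨hp, h5⟩
    have h5 : Pu S1 ≤ Pg T1 + Pg (S1 \ T1) := (Pg_mono h4).trans (Pg_union_le _ _)
    have h6 : Pu T1 = Pg T1 := rfl
    rw [h6]
    linarith
  have h4 : Pu S1 ≤ 1 := Pg_le_one _
  have h5 : 0 ≤ Pu T1 := Pg_nonneg _
  have h6 : (Pu S1 - Pu T1) * (Pu S1 + Pu T1 - 1) ≤ (Pu S1 - Pu T1) * 1 :=
    mul_le_mul_of_nonneg_left (by linarith) (by linarith)
  nlinarith

end Pool.Agent.RelU
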