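import Pool.Agent.RelU.ACC

/-!
# Target PAQ: the probability of acceptance is near to `0` or `1` for complementary machines
-/

set_option autoImplicit false

namespace Pool.Agent.RelU

open MeasureTheory Set
open Pool.Agent.RelM (Lang str)
open Pool.Agent.RelO (lev st)
open Pool.Agent.RelS (Z orc acc Idx Om Dep mixP)
open Pool.Agent.RelB (ML qbs)

namespace PAQ_

/-- the pair of the coins of a new pair -/
noncomputable def pr (j : ℕ) (τ : Om) : (Nw j → Bool) × (Nw j → KK j) :=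
  (fun x => τ (x.1.1, x.1.2, [], 0),
    fun x (i : Fin (nn (j + 1))) => τ (x.1.1, x.1.2, [], i.1 + 1))

/-- the law of the coins of the new pairs -/
theorem law (hUNF : T_UNF) (j : ℕ) (S : Set ((Nw j → Bool) × (Nw j → KK j))) :
    coin.real {τ | pr j τ ∈ S} = Pu S :=
  hUNF (Nw j) (nn (j + 1)) (fun x : Nw j => x.1) Subtype.val_injective S

end PAQ_

open PAQ_ in
theorem p_PAQ_of (hNC : T_NC) (hTHIN : T_THIN) (hCRT : T_CRT) (hLNK : T_LNK) (hUNF : T_UNF) :
    T_PAQ := by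
  intro j t η ω ε ht hε
  have l1 : ∀ τ : Om, ans j η (mixP (Old j) ω τ) t ↔
      cfg (ek j) (pr j τ).1 (pr j τ).2 ∈ Ac j η ω (pcode (st j)).1 t := fun τ =>
    hLNK j t η ω τ _ ht (mem_one j)
  have l2 : ∀ τ : Om, ans2 j η (mixP (Old j) ω τ) t ↔
      cfg (ek j) (pr j τ).1 (pr j τ).2 ∈ Ac j η ω (pcode (st j)).2 t := fun τ =>
    hLNK j t η ω τ _ ht (mem_two j)
  have e1 : pa j η ω t = Pu {p : (Nw j → Bool) × (Nw j → KK j) |
      cfg (ek j) p.1 p.2 ∈ Ac j η ω (pcode (st j)).1 t} := by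
    rw [← law hUNF j]
    unfold pa
    congr 1
    ext τ
    exact l1 τ
  have e2 : coin.real {τ | ans j η (mixP (Old j) ω τ) t ↔ ans2 j η (mixP (Old j) ω τ) t} =
      Pu {p : (Nw j → Bool) × (Nw j → KK j) |
        cfg (ek j) p.1 p.2 ∈ Ac j η ω (pcode (st j)).1 t ↔
        cfg (ek j) p.1 p.2 ∈ Ac j η ω (pcode (st j)).2 t} := by
    rw [← law hUNF j]
    congr 1
    ext τ
    exact iff_congr (l1 τ) (l2 τ)
  rw [e2] at hε
  obtain ⟨-, -, h3⟩ := qb_small ht
  have h4 := hNC (Nw j) (KK j) (List Bool) (2 ^ nn j) (qbs (ms j) (str t).length) ε (ek j)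
    (Ac j η ω (pcode (st j)).1 t) (Ac j η ω (pcode (st j)).2 t) (by positivity) (hTHIN j)
    (hCRT j t η ω _ ht (mem_one j)) (hCRT j t η ω _ ht (mem_two j)) hε
  rw [e1]
  refine h4.trans ?_
  have h5 : ((qbs (ms j) (str t).length : ℕ) : ℝ) / ((2 ^ nn j : ℕ) : ℝ) ≤
      1 / ((j : ℝ) + 1) := by
    have hj : (0 : ℝ) < (j : ℝ) + 1 := by positivity
    have hN : (0 : ℝ) < ((2 ^ nn j : ℕ) : ℝ) := by positivity
    rw [div_le_div_iff₀ hN hj]
    push_cast
    linarith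
  linarith

end Pool.Agent.RelU
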