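import Pool.Agent.RelU.Targets

/-!
# RELU, block THIN: the fibres of the key map are small
-/

set_option autoImplicit false

namespace Pool.Agent.RelU

open Pool.Agent.RelO (lev)

namespace THIN_

theorem key (j : ℕ) (x : Nw j) (v : List Bool) (A : Finset (KK j))
    (hA : ∀ k ∈ A, ek j x k = v) : 2 ^ nn j * A.card ≤ Fintype.card (KK j) := by
  have hx1 : nn j ≤ lev x.1.1 x.1.2 := x.2.1
  have hx2 : lev x.1.1 x.1.2 < nn (j + 1) := x.2.2
  let f : (Fin (nn j) → Bool) × {k // k ∈ A} → KK j := fun p i =>
    if h : i.1 < nn j then p.1 ⟨i.1, h⟩ else p.2.1 i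
  have hinj : Function.Injective f := by
    rintro ⟨b, k, hk⟩ ⟨b', k', hk'⟩ h
    have h1 : ∀ i : Fin (nn (j + 1)), f (b, ⟨k, hk⟩) i = f (b', ⟨k', hk'⟩) i :=
      fun i => congrFun h i
    have hb : b = b' := by
      funext i
      have h2 := h1 ⟨i.1, by omega⟩
      simpa [f] using h2
    have hkk : k = k' := by
      funext i
      by_cases hi : i.1 < nn j
      · have h3 : ek j x k = ek j x k' := (hA k hk).trans (hA k' hk').symm
        unfold ek at h3
        have h4 := List.map_inj_left.1 h3 i.1 (List.mem_range.2 (by omega))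
        simpa using h4
      · have h2 := h1 i
        simpa [f, hi] using h2
    subst hb
    subst hkk
    rfl
  have h5 := Fintype.card_le_of_injective f hinj
  rw [Fintype.card_prod, Fintype.card_coe] at h5
  simpa using h5

end THIN_

theorem p_THIN : T_THIN := by
  intro j x v
  refine THIN_.key j x v _ fun k hk => ?_
  simpa using hk

end Pool.Agent.RelU
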