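import Pool.Agent.RelU.Targets

/-!
# RelU, target UC: the up-closure of a set with certificates is hardly larger
-/

set_option autoImplicit false

namespace Pool.Agent.RelU

namespace UC_

open Classical

variable {X K V : Type} [Fintype X] [Fintype K]

/-- the order of the configurations -/
def Le (c c' : X → Option V) : Prop := ∀ x v, c x = some v → c' x = some v

omit [Fintype X] [Fintype K] in
theorem cfg_some {e : X → K → V} {B : X → Bool} {Y : X → K} {x : X} {v : V} :
    cfg e B Y x = some v ↔ B x = true ∧ e x (Y x) = v := by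
  unfold cfg
  split_ifs with h
  · simp [h]
  · simp [h]

/-- the class of the number `i` of a list of configurations -/
def Dm (e : X → K → V) (A : Set (X → Option V)) {n : ℕ} (c : Fin n → X → Option V) (i : Fin n)
    (p : (X → Bool) × (X → K)) : Prop :=
  c i ∈ A ∧ Le (c i) (cfg e p.1 p.2) ∧ ∀ i' < i, ¬ (c i' ∈ A ∧ Le (c i') (cfg e p.1 p.2))

omit [Fintype X] in
theorem swap_count (x : X) (g : K → Prop) (D : Finset ((X → Bool) × (X → K)))
    (hD : ∀ p ∈ D, ∀ k, (p.1, Function.update p.2 x k) ∈ D) :
    (D.filter fun p => g (p.2 x)).card * Fintype.card K =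
      D.card * (Finset.univ.filter g).card := by
  rw [← Finset.card_univ, ← Finset.card_product, ← Finset.card_product]
  refine Finset.card_nbij' (fun a => ((a.1.1, Function.update a.1.2 x a.2), a.1.2 x))
    (fun a => ((a.1.1, Function.update a.1.2 x a.2), a.1.2 x)) ?_ ?_ ?_ ?_
  · rintro ⟨p, k⟩ h
    simp only [Finset.coe_product, Set.mem_prod, Finset.mem_coe, Finset.mem_filter,
      Finset.mem_univ, and_true, true_and] at h ⊢
    exact ⟨hD p h.1 k, h.2⟩
  · rintro ⟨p, k⟩ h
    simp only [Finset.coe_product, Set.mem_prod, Finset.mem_coe, Finset.mem_filter,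
      Finset.mem_univ, and_true, true_and] at h ⊢
    exact ⟨hD p h.1 k, by simpa using h.2⟩
  · rintro ⟨p, k⟩ _
    simp
  · rintro ⟨p, k⟩ _
    simp

/-- One question. -/
theorem one_question [Nonempty K] {N : ℕ} {e : X → K → V} (hT : Thin N e)
    {A : Set (X → Option V)} {n : ℕ} (c : Fin n → X → Option V) (i : Fin n) (x : X) (v : V)
    (hx : c i x = none) :
    N * (Finset.univ.filter fun p : (X → Bool) × (X → K) =>
      Dm e A c i p ∧ cfg e p.1 p.2 x = some v).card ≤
      (Finset.univ.filter fun p : (X → Bool) × (X → K) => Dm e A c i p).card := by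
  set D : Finset ((X → Bool) × (X → K)) :=
    Finset.univ.filter fun p => Dm e A c i p ∧ p.1 x = false with hDdef
  have h1 : (Finset.univ.filter fun p : (X → Bool) × (X → K) =>
      Dm e A c i p ∧ cfg e p.1 p.2 x = some v).card ≤
      (D.filter fun p => e x (p.2 x) = v).card := by
    refine Finset.card_le_card_of_injOn (fun p => (Function.update p.1 x false, p.2)) ?_ ?_
    · rintro ⟨B, Y⟩ hp
      simp only [Finset.coe_filter, Finset.mem_univ, true_and, Set.mem_ofPred_eq, hDdef,
        Finset.mem_filter] at hp ⊢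
      obtain ⟨⟨h2, h3, h4⟩, h5⟩ := hp
      refine ⟨⟨⟨h2, ?_, ?_⟩, Function.update_self _ _ _⟩, (cfg_some.1 h5).2⟩
      · intro x' w hw
        have hne : x' ≠ x := by
          rintro rfl
          rw [hx] at hw
          cases hw
        rw [cfg_some]
        dsimp only
        rw [Function.update_of_ne hne]
        exact cfg_some.1 (h3 x' w hw)
      · intro i' hi' h6
        refine h4 i' hi' ⟨h6.1, fun x' w hw => ?_⟩
        have h7 := cfg_some.1 (h6.2 x' w hw)
        dsimp only at h7
        rw [cfg_some]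
        refine ⟨?_, h7.2⟩
        by_cases hne : x' = x
        · subst hne
          simp at h7
        · rw [Function.update_of_ne hne] at h7
          exact h7.1
    · rintro ⟨B, Y⟩ hp ⟨B', Y'⟩ hp' hpp
      simp only [Finset.coe_filter, Finset.mem_univ, true_and, Set.mem_ofPred_eq] at hp hp'
      simp only [Prod.mk.injEq] at hpp ⊢
      refine ⟨funext fun x' => ?_, hpp.2⟩
      by_cases hne : x' = x
      · subst hne
        rw [(cfg_some.1 hp.2).1, (cfg_some.1 hp'.2).1]
      · have := congrFun hpp.1 x'
        rwa [Function.update_of_ne hne, Function.update_of_ne hne] at this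
  have h2 : N * (D.filter fun p => e x (p.2 x) = v).card ≤ D.card := by
    have h3 := swap_count x (fun k => e x k = v) D (by
      rintro ⟨B, Y⟩ hp k
      simp only [Finset.mem_filter, Finset.mem_univ, true_and, hDdef] at hp ⊢
      obtain ⟨h4, h5⟩ := hp
      have h6 : cfg e B (Function.update Y x k) = cfg e B Y := by
        funext x'
        unfold cfg
        by_cases hne : x' = x
        · subst hne
          simp [h5]
        · rw [Function.update_of_ne hne]
      refine ⟨?_, h5⟩
      unfold Dm at h4 ⊢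
      simp only [h6]
      exact h4)
    have h4 : 0 < Fintype.card K := Fintype.card_pos
    have h5 : N * (Finset.univ.filter fun k : K => e x k = v).card ≤ Fintype.card K := by
      have := hT x v
      convert this
    refine Nat.le_of_mul_le_mul_right ?_ h4
    calc N * (D.filter fun p => e x (p.2 x) = v).card * Fintype.card K
        = N * ((D.filter fun p => e x (p.2 x) = v).card * Fintype.card K) := by ring
      _ = N * (D.card * (Finset.univ.filter fun k : K => e x k = v).card) := by rw [h3]
      _ = D.card * (N * (Finset.univ.filter fun k : K => e x k = v).card) := by ring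
      _ ≤ D.card * Fintype.card K := Nat.mul_le_mul_left _ h5
  have h3 : D.card ≤ (Finset.univ.filter fun p : (X → Bool) × (X → K) => Dm e A c i p).card := by
    refine Finset.card_le_card fun p hp => ?_
    simp only [Finset.mem_filter, Finset.mem_univ, true_and, hDdef] at hp ⊢
    exact hp.1
  exact (Nat.mul_le_mul_left _ h1).trans (h2.trans h3)

/-- One class. -/
theorem one_class [Nonempty K] {N q : ℕ} {e : X → K → V} (hT : Thin N e)
    {A : Set (X → Option V)} (hC : Cert q A) {n : ℕ} (c : Fin n → X → Option V) (i : Fin n) :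
    N * (Finset.univ.filter fun p : (X → Bool) × (X → K) =>
      Dm e A c i p ∧ cfg e p.1 p.2 ∉ A).card ≤
      q * (Finset.univ.filter fun p : (X → Bool) × (X → K) => Dm e A c i p).card := by
  by_cases hi : c i ∈ A
  · obtain ⟨Q, hQ, hQA⟩ := hC (c i) hi
    have h1 : (Finset.univ.filter fun p : (X → Bool) × (X → K) =>
        Dm e A c i p ∧ cfg e p.1 p.2 ∉ A) ⊆ (Q.filter fun a => c i a.1 = none).biUnion fun a =>
        Finset.univ.filter fun p : (X → Bool) × (X → K) =>
          Dm e A c i p ∧ cfg e p.1 p.2 a.1 = some a.2 := by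
      intro p hp
      simp only [Finset.mem_filter, Finset.mem_univ, true_and] at hp
      obtain ⟨h2, h3⟩ := hp
      have h4 : ¬ ∀ a ∈ Q, (cfg e p.1 p.2 a.1 = some a.2 ↔ c i a.1 = some a.2) := fun h =>
        h3 (hQA _ h)
      push Not at h4
      obtain ⟨a, ha, h5⟩ := h4
      have h6 : cfg e p.1 p.2 a.1 = some a.2 ∧ c i a.1 ≠ some a.2 := by
        rcases h5 with h5 | h5
        · exact h5
        · exact absurd (h2.2.1 a.1 a.2 h5.2) h5.1
      simp only [Finset.mem_biUnion, Finset.mem_filter, Finset.mem_univ, true_and]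
      refine ⟨a, ⟨ha, ?_⟩, h2, h6.1⟩
      rcases h7 : c i a.1 with _ | w
      · rfl
      · have h8 := h2.2.1 a.1 w h7
        rw [h6.1] at h8
        rw [h7] at h6
        exact absurd h8.symm h6.2
    calc N * (Finset.univ.filter fun p : (X → Bool) × (X → K) =>
        Dm e A c i p ∧ cfg e p.1 p.2 ∉ A).card
        ≤ N * ∑ a ∈ Q.filter fun a => c i a.1 = none,
            (Finset.univ.filter fun p : (X → Bool) × (X → K) =>
              Dm e A c i p ∧ cfg e p.1 p.2 a.1 = some a.2).card :=
          Nat.mul_le_mul_left _ ((Finset.card_le_card h1).trans Finset.card_biUnion_le)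
      _ = ∑ a ∈ Q.filter fun a => c i a.1 = none,
            N * (Finset.univ.filter fun p : (X → Bool) × (X → K) =>
              Dm e A c i p ∧ cfg e p.1 p.2 a.1 = some a.2).card := Finset.mul_sum _ _ _
      _ ≤ ∑ a ∈ Q.filter fun a => c i a.1 = none,
            (Finset.univ.filter fun p : (X → Bool) × (X → K) => Dm e A c i p).card := by
          refine Finset.sum_le_sum fun a ha => ?_
          exact one_question hT c i a.1 a.2 (Finset.mem_filter.1 ha).2
      _ = (Q.filter fun a => c i a.1 = none).card *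
            (Finset.univ.filter fun p : (X → Bool) × (X → K) => Dm e A c i p).card := by
          rw [Finset.sum_const, smul_eq_mul]
      _ ≤ _ := Nat.mul_le_mul_right _ ((Finset.card_filter_le _ _).trans hQ)
  · have h1 : (Finset.univ.filter fun p : (X → Bool) × (X → K) =>
        Dm e A c i p ∧ cfg e p.1 p.2 ∉ A) = ∅ := by
      refine Finset.filter_eq_empty_iff.2 fun p _ h => ?_
      exact hi h.1.1
    rw [h1]
    simp

omit [Fintype X] [Fintype K] in
/-- every configuration above a member of `A` is in one of the classes -/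
theorem exists_class {e : X → K → V} {A : Set (X → Option V)} {n : ℕ}
    (c : Fin n → X → Option V)
    (hc : ∀ p : (X → Bool) × (X → K), ∃ i, c i = cfg e p.1 p.2)
    (p : (X → Bool) × (X → K)) (hp : cfg e p.1 p.2 ∈ Up A) : ∃ i, Dm e A c i p := by
  obtain ⟨c0, hc0, h⟩ := hp
  have h1 : ∃ i, c i ∈ A ∧ Le (c i) (cfg e p.1 p.2) := by
    obtain ⟨i, hi⟩ := hc (fun x => (c0 x).isSome, p.2)
    have h2 : c i = c0 := by
      rw [hi]
      funext x
      rcases h3 : c0 x with _ | w
      · show cfg e (fun x => (c0 x).isSome) p.2 x = none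
        unfold cfg
        rw [if_neg (by simp [h3])]
      · exact cfg_some.2 ⟨by simp [h3], (cfg_some.1 (h x w h3)).2⟩
    exact ⟨i, h2 ▸ hc0, h2 ▸ h⟩
  obtain ⟨i, hi, hmin⟩ := (wellFounded_lt (α := Fin n)).has_min
    {i | c i ∈ A ∧ Le (c i) (cfg e p.1 p.2)} h1
  exact ⟨i, hi.1, hi.2, fun i' hi' h' => hmin i' h' hi'⟩

end UC_

open UC_ in
/-- **UC** -/
theorem p_UC : T_UC := by
  classical
  intro X K V _ _ _ N q e A hT hC
  let P := (X → Bool) × (X → K)
  let eq := Fintype.equivFin P
  let c : Fin (Fintype.card P) → X → Option V := fun i => cfg e (eq.symm i).1 (eq.symm i).2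
  have hc : ∀ p : P, ∃ i, c i = cfg e p.1 p.2 := fun p => ⟨eq p, by simp [c]⟩
  have h1 : (Finset.univ.filter fun p : P => p ∈ {p : P | cfg e p.1 p.2 ∈ Up A ∧
      cfg e p.1 p.2 ∉ A}) ⊆ Finset.univ.biUnion fun i : Fin (Fintype.card P) =>
      Finset.univ.filter fun p : P => Dm e A c i p ∧ cfg e p.1 p.2 ∉ A := by
    intro p hp
    simp only [Finset.mem_filter, Finset.mem_univ, true_and, Set.mem_ofPred_eq] at hp
    obtain ⟨i, hi⟩ := exists_class c hc p hp.1
    simp only [Finset.mem_biUnion, Finset.mem_filter, Finset.mem_univ, true_and]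
    exact ⟨i, hi, hp.2⟩
  have h2 : ∑ i : Fin (Fintype.card P), (Finset.univ.filter fun p : P => Dm e A c i p).card ≤
      Fintype.card P := by
    rw [← Finset.card_biUnion]
    · exact Finset.card_le_univ _
    · intro i _ i' _ hne
      refine Finset.disjoint_left.2 ?_
      intro p hp hp'
      simp only [Finset.mem_filter, Finset.mem_univ, true_and] at hp hp'
      rcases lt_or_gt_of_ne hne with h | h
      · exact hp'.2.2 i h ⟨hp.1, hp.2.1⟩
      · exact hp.2.2 i' h ⟨hp'.1, hp'.2.1⟩
  have h3 : N * (Finset.univ.filter fun p : P => p ∈ {p : P | cfg e p.1 p.2 ∈ Up A ∧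
      cfg e p.1 p.2 ∉ A}).card ≤ q * Fintype.card P := by
    calc N * (Finset.univ.filter fun p : P => p ∈ {p : P | cfg e p.1 p.2 ∈ Up A ∧
          cfg e p.1 p.2 ∉ A}).card
        ≤ N * ∑ i : Fin (Fintype.card P),
            (Finset.univ.filter fun p : P => Dm e A c i p ∧ cfg e p.1 p.2 ∉ A).card :=
          Nat.mul_le_mul_left _ ((Finset.card_le_card h1).trans Finset.card_biUnion_le)
      _ = ∑ i : Fin (Fintype.card P),
            N * (Finset.univ.filter fun p : P => Dm e A c i p ∧ cfg e p.1 p.2 ∉ A).card :=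
          Finset.mul_sum _ _ _
      _ ≤ ∑ i : Fin (Fintype.card P),
            q * (Finset.univ.filter fun p : P => Dm e A c i p).card :=
          Finset.sum_le_sum fun i _ => one_class hT hC c i
      _ = q * ∑ i : Fin (Fintype.card P),
            (Finset.univ.filter fun p : P => Dm e A c i p).card := (Finset.mul_sum _ _ _).symm
      _ ≤ q * Fintype.card P := Nat.mul_le_mul_left _ h2
  have h4 : 0 < Fintype.card P := Fintype.card_pos
  unfold Pu
  rw [mul_div_assoc', div_le_iff₀ (by exact_mod_cast h4)]
  have h5 : ((N * (Finset.univ.filter fun p : P => p ∈ {p : P | cfg e p.1 p.2 ∈ Up A ∧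
      cfg e p.1 p.2 ∉ A}).card : ℕ) : ℝ) ≤ ((q * Fintype.card P : ℕ) : ℝ) := by
    exact_mod_cast h3
  rw [Nat.cast_mul, Nat.cast_mul] at h5
  have h6 : ∀ (i₁ i₂ : DecidablePred fun p : P => p ∈ {p : P | cfg e p.1 p.2 ∈ Up A ∧
      cfg e p.1 p.2 ∉ A}), (@Finset.filter P (fun p : P => p ∈ {p : P | cfg e p.1 p.2 ∈ Up A ∧
      cfg e p.1 p.2 ∉ A}) i₁ Finset.univ).card = (@Finset.filter P (fun p : P =>
      p ∈ {p : P | cfg e p.1 p.2 ∈ Up A ∧ cfg e p.1 p.2 ∉ A}) i₂ Finset.univ).card := by
    intro i₁ i₂
    rw [Subsingleton.elim i₁ i₂]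
  rw [h6 _ fun _ => Classical.propDecidable _] at h5
  exact h5

end Pool.Agent.RelU
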