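import Pool.Agent.RelC.Targets
import Pool.Agent.RelQ.Defs
import Pool.Agent.RelO.LEV

/-!
# An oracle relative to which `UP` is not null, but `NP ∩ coNP` has dimension `0`

Fair coins: for every pair `κ`, `x` one coin says whether the pair has a key, and the other coins
are the bits of the key. The oracle has the form of `Pool.Agent.RelS.Core`. Stage `j` treats two
nondeterministic machines; the gambler of the stage bets on the words with the probabilities that the
first machine accepts them, given the coins which are older than the stage.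
-/

set_option autoImplicit false

namespace Pool.Agent.RelU

open MeasureTheory Set
open scoped ENNReal
open Pool.Agent.RelM (Lang Instr Cfg step run Halts Decides E1 E2 NP pair triple binVal outVal
  Approx IsDensity str pre IsNullCover Null1 Null2 wq sq0 sq1 Asks hq code qb)
open Pool.Agent.RelO (lev IsGale IsGaleCover GaleNull1 GaleNull2 st)
open Pool.Agent.RelS (Z Rl orcV orc acc Idx Om bern bern_prob Dep mixP)
open Pool.Agent.RelB (ML qbs qf ee)

/-! ## Pairs of machines -/

/-- Nondeterministic machines. -/
abbrev NM : Type := List Instr × ℕ × ℕ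

/-- An enumeration of the pairs of machines. -/
noncomputable def pcode : ℕ → NM × NM := (exists_surjective_nat (NM × NM)).choose

theorem pcode_surj : Function.Surjective pcode := (exists_surjective_nat (NM × NM)).choose_spec

/-- The machines of stage `j`. -/
noncomputable def ms (j : ℕ) : ML := [(pcode (st j)).1, (pcode (st j)).2]

/-! ## Stages -/

/-- Stage `j` must begin at least here. -/
noncomputable def thr (j : ℕ) : ℕ :=
  sInf {N | j + 2 ≤ N ∧ 2 ^ j ≤ N ∧ ∀ n, N ≤ n →
    qbs (ms j) (n + j) + 2 < 2 ^ n ∧ ((j : ℝ) + 1) * (qbs (ms j) (n + j) : ℝ) ≤ 1 * 2 ^ n}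

/-- The beginning of stage `j`. The gambler of stage `j` bets on the words with the numbers
`2 ^ nn j, ..., 2 ^ (nn j + j) - 1`. -/
noncomputable def nn : ℕ → ℕ
  | 0 => thr 0
  | j + 1 => max (max (qbs (ms j) (nn j + j)) (nn j + j) + 1) (thr (j + 1))

/-- The coins of cost `m` are old for the first time at stage `jj m`. -/
noncomputable def jj (m : ℕ) : ℕ := sInf {j | m < nn j}

/-! ## Coins -/

/-- Independent fair coins. -/
noncomputable def coin : Measure Om := Measure.infinitePi fun _ => bern (1 / 2)

instance : IsProbabilityMeasure (bern (1 / 2)) := bern_prob (by norm_num) (by norm_num)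

instance : IsProbabilityMeasure coin := by unfold coin; infer_instance

/-- The coins older than stage `j`. -/
def Old (j : ℕ) : Set Idx :=
  {a | lev a.1 a.2.1 < nn j ∧ a.2.2.1.length ≤ nn j ∧ a.2.2.2 ≤ nn j}

/-- The key of the pair `κ`, `x`, its bits are the coins number `1, ..., lev κ x`. -/
def key (ω : Om) (κ : ℕ) (x : List Bool) : List Bool :=
  (List.range (lev κ x)).map fun i => ω (κ, x, [], i + 1)

/-- The world: the coin number `0` says whether the pair has a key. -/
def zo (ω : Om) : Z := fun κ x y => ω (κ, x, [], 0) && decide (y = key ω κ x)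

/-! ## The supergales -/

/-- The probabilities of `true` that are used. -/
noncomputable def hv (η : ℕ → ℕ → ℝ) (j t : ℕ) : ℝ :=
  if 2 ^ nn j ≤ t ∧ t < 2 ^ (nn j + j) then max 0 (min 1 (η j t)) else 1 / 2

/-- The probability given to `w` at stage `j`. -/
noncomputable def Pw (η : ℕ → ℕ → ℝ) (j : ℕ) (w : List Bool) : ℝ :=
  ∏ t ∈ Finset.range w.length, qf (hv η j t) (w.getD t false)

/-- The probability given to `w`. -/
noncomputable def PP (η : ℕ → ℕ → ℝ) (w : List Bool) : ℝ :=
  ∑ j ∈ Finset.range w.length, (1 / 2 : ℝ) ^ (j + 1) * Pw η j w +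
    (1 / 2 : ℝ) ^ w.length * (1 / 2 : ℝ) ^ w.length

/-- The parameter of the supergale number `k`. -/
noncomputable def sK (k : ℕ) : ℝ := min 2 (1 / (((ee k).2 : ℝ) + 1))

/-- The supergale number `k`. -/
noncomputable def dd (η : ℕ → ℕ → ℝ) (k : ℕ) (w : List Bool) : ℝ :=
  (1 / 2 : ℝ) ^ k * (2 : ℝ) ^ (sK k * w.length) * PP η w

/-- The numerator of the approximation. -/
noncomputable def num (η : ℕ → ℕ → ℝ) (k r : ℕ) (w : List Bool) : ℕ :=
  ⌊(2 : ℝ) ^ (r + 1) * dd η k w⌋₊

open Classical in
/-- The bits of the numerators of the approximations. -/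
noncomputable def bitsOf (η : ℕ → ℕ → ℝ) : Lang := fun u => decide (
  (∃ j k r w, u = hq false false j k r w ∧ j < Nat.size (num η k r w)) ∨
  (∃ j k r w, u = hq false true j k r w ∧ Nat.testBit (num η k r w) j = true) ∨
  (∃ j k r w, u = hq true false j k r w ∧ j < r + 1))

/-! ## Probabilities -/

/-- The oracle of the probabilities `η`. -/
noncomputable def oh (η : ℕ → ℕ → ℝ) (ω : Om) : Lang := orc (bitsOf η) (zo ω)

/-- The first machine of stage `j` accepts the word number `t`. -/
def ans (j : ℕ) (η : ℕ → ℕ → ℝ) (ω : Om) (t : ℕ) : Prop :=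
  acc (oh η ω) (pcode (st j)).1 (str t)

/-- The second machine of stage `j` accepts the word number `t`. -/
def ans2 (j : ℕ) (η : ℕ → ℕ → ℝ) (ω : Om) (t : ℕ) : Prop :=
  acc (oh η ω) (pcode (st j)).2 (str t)

/-- The probability that the first machine accepts the word number `t`, given the coins older than
stage `j`. -/
noncomputable def pa (j : ℕ) (η : ℕ → ℕ → ℝ) (ω : Om) (t : ℕ) : ℝ :=
  coin.real {τ | ans j η (mixP (Old j) ω τ) t}

/-- The words on which the gambler of stage `j` bets. -/
noncomputable def Wd (j : ℕ) : Finset ℕ := Finset.Ico (2 ^ nn j) (2 ^ (nn j + j))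

/-- The probabilities after the stages before `j`. -/
noncomputable def hs (ω : Om) : ℕ → ℕ → ℕ → ℝ
  | 0 => fun _ _ => 1 / 2
  | j + 1 => Function.update (hs ω j) j fun t => pa j (hs ω j) ω t

/-- The probabilities. -/
noncomputable def hf (ω : Om) : ℕ → ℕ → ℝ := fun j => hs ω (j + 1) j

/-- The oracle. -/
noncomputable def oo (ω : Om) : Lang := oh (hf ω) ω

/-! ## Hiding -/

/-- The stage at which the coins of the pair κ, x become old. -/
noncomputable def bl (κ : ℕ) (x : List Bool) : ℕ := jj (lev κ x)

/-- The pairs visible to a gambler who bets on the word number `t` of `Rl z κ`. -/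
def SS (κ t : ℕ) : ℕ → List Bool → Prop := fun κ' x =>
  lev κ' x < nn (bl κ (str t)) ∧ ¬ (κ' = κ ∧ ∃ t', t ≤ t' ∧ x = str t')

/-- The oracle in which only these pairs are visible, and only the part `11` that can be read. -/
noncomputable def ov (κ t : ℕ) (ω : Om) : Lang :=
  orcV (SS κ t) (bitsOf (hs ω (bl κ (str t)))) (zo ω)

/-- The coins visible to a gambler who bets on the word number `t` of `Rl z κ`. -/
def Vis (κ t : ℕ) : Set Idx :=
  {a | a ∈ Old (bl κ (str t)) ∧ ¬ (a.1 = κ ∧ ∃ t', t ≤ t' ∧ a.2.1 = str t')}

/-! ## The success of a stage -/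

/-- The probability of acceptance used at stage `j`. -/
noncomputable def pp (j t : ℕ) (ω : Om) : ℝ := pa j (hs ω j) ω t

/-- The first machine of stage `j` accepts the word number `t` in the end. -/
def Tr (j t : ℕ) (ω : Om) : Prop := acc (oo ω) (pcode (st j)).1 (str t)

/-- The second machine of stage `j` accepts the word number `t` in the end. -/
def Tr2 (j t : ℕ) (ω : Om) : Prop := acc (oo ω) (pcode (st j)).2 (str t)

open Classical in
/-- The probability given to the answer on the word number `t`. -/
noncomputable def ql (j t : ℕ) (ω : Om) : ℝ := qf (pp j t ω) (decide (Tr j t ω))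

/-- The loss of stage `j`. -/
noncomputable def loss (j : ℕ) (ω : Om) : ℝ := ∑ t ∈ Wd j, -Real.log (ql j t ω)

/-- Stage `j` fails. -/
def fail (δ : ℝ) (j : ℕ) : Set Om :=
  {ω | δ * 2 ^ (nn j + j) ≤ loss j ω ∨ ∃ t ∈ Wd j, ql j t ω = 0}

/-! ## Configurations -/

section
variable {X K V : Type} [Fintype X] [Fintype K]

/-- The configuration: the pair `x` has the key `e x (Y x)` if `B x = true`, otherwise it has none. -/
def cfg (e : X → K → V) (B : X → Bool) (Y : X → K) : X → Option V := fun x =>
  if B x = true then some (e x (Y x)) else none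

/-- Every member `c` of `A` has a certificate of at most `q` questions `c x = some v`. -/
def Cert (q : ℕ) (A : Set (X → Option V)) : Prop :=
  ∀ c ∈ A, ∃ Q : Finset (X × V), Q.card ≤ q ∧
    ∀ c' : X → Option V, (∀ p ∈ Q, (c' p.1 = some p.2 ↔ c p.1 = some p.2)) → c' ∈ A

/-- The configurations above a member of `A`. -/
def Up (A : Set (X → Option V)) : Set (X → Option V) :=
  {c | ∃ c0 ∈ A, ∀ x v, c0 x = some v → c x = some v}

open Classical in
/-- The probability of a set of presence bits and keys. -/
noncomputable def Pu (S : Set ((X → Bool) × (X → K))) : ℝ :=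
  ((Finset.univ.filter fun p : (X → Bool) × (X → K) => p ∈ S).card : ℝ) /
    Fintype.card ((X → Bool) × (X → K))

open Classical in
/-- The probability of a set of presence bits. -/
noncomputable def Pb (S : Set (X → Bool)) : ℝ :=
  ((Finset.univ.filter fun B : X → Bool => B ∈ S).card : ℝ) / Fintype.card (X → Bool)

open Classical in
/-- The fibres of the key maps are small. -/
def Thin (N : ℕ) (e : X → K → V) : Prop :=
  ∀ x v, N * (Finset.univ.filter fun k : K => e x k = v).card ≤ Fintype.card K

open Classical in
/-- The mean over the keys. -/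
noncomputable def Ey (f : (X → K) → ℝ) : ℝ := (∑ Y : X → K, f Y) / Fintype.card (X → K)

end

/-! ## The new pairs of a stage -/

/-- The pairs whose coins are new at stage `j`. -/
def Nw (j : ℕ) : Type := {p : ℕ × List Bool // nn j ≤ lev p.1 p.2 ∧ lev p.1 p.2 < nn (j + 1)}

theorem nw_fin (j : ℕ) :
    {p : ℕ × List Bool | nn j ≤ lev p.1 p.2 ∧ lev p.1 p.2 < nn (j + 1)}.Finite := by
  refine (((Set.finite_Iic (nn (j + 1))).prod
    (List.finite_length_le Bool (nn (j + 1))))).subset ?_
  rintro ⟨κ, x⟩ ⟨_, h⟩
  have h' : lev κ x < nn (j + 1) := h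
  exact Pool.Agent.RelO.levfin κ x _ h'.le

noncomputable instance (j : ℕ) : Fintype (Nw j) := (nw_fin j).fintype

/-- The key bits of a new pair. -/
abbrev KK (j : ℕ) : Type := Fin (nn (j + 1)) → Bool

/-- The key of a new pair consists of its first `lev` bits. -/
noncomputable def ek (j : ℕ) (p : Nw j) (k : KK j) : List Bool :=
  (List.range (lev p.1.1 p.1.2)).map fun i => if h : i < nn (j + 1) then k ⟨i, h⟩ else false

/-- The world of a configuration of the new pairs, the older pairs are those of `ω`. -/
noncomputable def Wc (j : ℕ) (ω : Om) (c : Nw j → Option (List Bool)) : Z := fun κ x y =>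
  if lev κ x < nn j then zo ω κ x y
  else if h : nn j ≤ lev κ x ∧ lev κ x < nn (j + 1) then decide (c ⟨(κ, x), h⟩ = some y)
  else false

/-- The configurations with which the machine `v` accepts the word number `t`. -/
def Ac (j : ℕ) (η : ℕ → ℕ → ℝ) (ω : Om) (v : NM) (t : ℕ) : Set (Nw j → Option (List Bool)) :=
  {c | acc (orc (bitsOf η) (Wc j ω c)) v (str t)}

/-- The language of the first machine of stage `j`. -/
noncomputable def Lj (j : ℕ) (ω : Om) : Lang := by
  classical exact fun x => decide (acc (oo ω) (pcode (st j)).1 x)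

/-- The class `NP ∩ coNP` relative to `O`. -/
def NPco (O : Lang) : Set Lang := NP O ∩ {A | (fun x => !A x) ∈ NP O}

end Pool.Agent.RelU
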