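import Pool.Agent.RelU.Targets
import Pool.Agent.RelU.DENT
import Pool.Agent.RelB.UPP
import Pool.Agent.RelS.SHIFT
import Pool.Agent.RelO.FAM
import Pool.Agent.RelO.MAIN
import Pool.Agent.RelM.READ

/-!
# NP and coNP have an intersection of dimension 0
-/

set_option autoImplicit false

namespace Pool.Agent.RelU

open MeasureTheory Set
open scoped ENNReal
open Pool.Agent.RelB (ee T_AFF pre_length mg mg_pos ee_kk)
open Pool.Agent.RelM (Lang Instr Cfg run Halts NP E1 E2 Approx IsDensity IsNullCover Null1 Null2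
  pair triple str pre hq wq sq0 sq1 Asks code qb)
open Pool.Agent.RelO (lev st IsGale IsGaleCover GaleNull1 GaleNull2)
open Pool.Agent.RelS (Z Rl orcV orc acc Idx Om Dep mixP)

namespace UPP_

theorem oo_tt (ω : Om) (u : List Bool) :
    oo ω (true :: true :: u) = bitsOf (hf ω) u := Pool.Agent.RelS.ott _ _ _ _

/-- The supergales can be computed in polynomial time. -/
theorem appr : ∃ (P : List Instr) (c : ℕ), ∀ (ω : Om),
    Approx (oo ω) P (fun l => (l + 2) ^ c) (dd (hf ω)) := by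
  obtain ⟨P, c, h⟩ := Pool.Agent.RelM.read Pool.Agent.RelM.stay
  refine ⟨P, c, fun ω k r w => ?_⟩
  have h1 := h (oo ω) (num (hf ω))
    (fun j k r w => by rw [oo_tt]; exact (bits (hf ω) j k r w).1)
    (fun j k r w => by rw [oo_tt]; exact (bits (hf ω) j k r w).2.1)
    (fun j k r w => by rw [oo_tt]; exact (bits (hf ω) j k r w).2.2)
    (fun k r w => (numok (hf ω) k r w).1) k r w
  refine ⟨h1.1, ?_⟩
  rw [h1.2]
  exact (numok (hf ω) k r w).2

/-- The supergale number `k` is large on a language of the intersection. -/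
theorem cov {ω : Om} (hω : ∀ e n : ℕ,
      (∀ j, st j = e → ∀ t ∈ Wd j, (Tr j t ω ↔ ¬ Tr2 j t ω)) → ∀ m : ℕ, ∃ j, m ≤ j ∧ st j = e ∧
      Real.exp (-(mg n * 2 ^ (nn j + j) + 2 ^ nn j)) ≤
        Pw (hf ω) j (pre (Lj j ω) (2 ^ (nn j + j))))
    (n : ℕ) {A : Lang} (hA : A ∈ NPco (oo ω)) (k : ℕ) (hk : (ee k).2 = n) :
    ∃ N, 1 ≤ dd (hf ω) k (pre A N) := by
  classical
  obtain ⟨⟨P1, b1, c1, hP1⟩, P2, b2, c2, hP2⟩ := hA
  obtain ⟨e, he⟩ := pcode_surj ((P1, b1, c1), (P2, b2, c2))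
  have ha1 : ∀ x, A x = true ↔ acc (oo ω) (P1, b1, c1) x := fun x => (hP1 x).2
  have ha2 : ∀ x, (!A x) = true ↔ acc (oo ω) (P2, b2, c2) x := fun x => (hP2 x).2
  obtain ⟨n0, hn⟩ := Pool.Agent.RelS.NN_.exp_bound 1 (4 * (n + 1) * (k + 1)) 0
  obtain ⟨j, hjn, hst, hlow⟩ := hω e n (fun j hj t _ => by
    unfold Tr Tr2
    rw [hj, he]
    show acc (oo ω) (P1, b1, c1) (str t) ↔ ¬ acc (oo ω) (P2, b2, c2) (str t)
    rw [← ha1, ← ha2]
    cases A (str t) <;> simp) n0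
  have hAt : Lj j ω = A := by
    funext x
    unfold Lj
    rw [Bool.eq_iff_iff, ha1 x, decide_eq_true_eq, hst, he]
  rw [hAt] at hlow
  have hj2 : 4 * (n + 1) * (k + j + 2) ≤ 2 ^ j := by
    have h1 := hn j hjn
    rw [pow_one] at h1
    have h2 : k + j + 2 ≤ (k + 1) * (j + 2) := by nlinarith
    calc 4 * (n + 1) * (k + j + 2) ≤ 4 * (n + 1) * ((k + 1) * (j + 2)) := by gcongr
      _ = 4 * (n + 1) * (k + 1) * (j + 0 + 2) := by ring
      _ ≤ 2 ^ j := by omega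
  refine ⟨2 ^ (nn j + j), ?_⟩
  have hjN : j < (pre A (2 ^ (nn j + j))).length := by
    rw [pre_length]
    have h1 : nn j + j < 2 ^ (nn j + j) := Nat.lt_two_pow_self
    omega
  refine le_trans ?_ (dlow (hf ω) k j _ hjN)
  rw [pre_length]
  obtain ⟨L, hL⟩ : ∃ L, L = Real.log 2 := ⟨_, rfl⟩
  have hL1 : 1 / 2 ≤ L := by rw [hL]; linarith [Real.log_two_gt_d9]
  have hL2 : L ≤ 1 := by rw [hL]; linarith [Real.log_two_lt_d9]
  obtain ⟨M, hM⟩ : ∃ M : ℝ, M = 2 ^ nn j := ⟨_, rfl⟩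
  have hM1 : 1 ≤ M := by rw [hM]; exact one_le_pow₀ (by norm_num)
  have hN : (2 : ℝ) ^ (nn j + j) = M * 2 ^ j := by rw [hM, pow_add]
  have hhalf : ∀ m : ℕ, (1 / 2 : ℝ) ^ m = Real.exp (-(m * L)) := by
    intro m
    rw [hL, ← mul_neg, Real.exp_nat_mul, Real.exp_neg, Real.exp_log (by norm_num), one_div]
  have hpow : (2 : ℝ) ^ (sK k * ((2 ^ (nn j + j) : ℕ) : ℝ)) =
      Real.exp (L * (sK k * (M * 2 ^ j))) := by
    rw [Real.rpow_def_of_pos (by norm_num), ← hL]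
    push_cast
    rw [hN]
  rw [hN, ← hM] at hlow
  have hkey : 0 ≤ -(k * L) + L * (sK k * (M * 2 ^ j)) +
      (-(((j + 1 : ℕ) : ℝ) * L) + -(mg n * (M * 2 ^ j) + M)) := by
    have h1 : sK k = 1 / ((n : ℝ) + 1) := by
      unfold sK
      rw [hk]
      apply min_eq_right
      have : (1 : ℝ) / ((n : ℝ) + 1) ≤ 1 := by
        rw [div_le_one (by positivity)]
        linarith [Nat.cast_nonneg (α := ℝ) n]
      linarith
    have h2 : mg n = L / (2 * ((n : ℝ) + 1)) := by unfold mg; rw [hL]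
    have hj3 : 4 * ((n : ℝ) + 1) * (k + j + 2) ≤ 2 ^ j := by exact_mod_cast hj2
    rw [h1, h2]
    have hk : (0 : ℝ) < (n : ℝ) + 1 := by positivity
    have h3 : L * (1 / ((n : ℝ) + 1) * (M * 2 ^ j)) -
        L / (2 * ((n : ℝ) + 1)) * (M * 2 ^ j) =
        L * M * 2 ^ j / (2 * ((n : ℝ) + 1)) := by
      field_simp
      ring
    have h4 : M * ((k : ℝ) + j + 2) ≤ L * M * 2 ^ j / (2 * ((n : ℝ) + 1)) := by
      rw [le_div_iff₀ (by positivity)]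
      calc M * ((k : ℝ) + j + 2) * (2 * (n + 1)) = 1 / 2 * M * (4 * (n + 1) * (k + j + 2)) := by
            ring
        _ ≤ L * M * 2 ^ j := by gcongr
    have h5 : ((k : ℝ) + (j + 1)) * L + M ≤ M * ((k : ℝ) + j + 2) := by
      have h6 : ((k : ℝ) + (j + 1)) * L ≤ ((k : ℝ) + (j + 1)) * M :=
        mul_le_mul_of_nonneg_left (hL2.trans hM1) (by positivity)
      linarith
    push_cast
    linarith
  calc (1 : ℝ) ≤ Real.exp (-(k * L) + L * (sK k * (M * 2 ^ j)) +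
        (-(((j + 1 : ℕ) : ℝ) * L) + -(mg n * (M * 2 ^ j) + M))) :=
        Real.one_le_exp hkey
    _ = (1 / 2 : ℝ) ^ k * (2 : ℝ) ^ (sK k * ((2 ^ (nn j + j) : ℕ) : ℝ)) *
        ((1 / 2 : ℝ) ^ (j + 1) * Real.exp (-(mg n * (M * 2 ^ j) + M))) := by
        rw [hhalf, hpow, hhalf, ← Real.exp_add, ← Real.exp_add, ← Real.exp_add]
    _ ≤ _ := by gcongr

end UPP_

open UPP_

/-- The intersection of `NP` and `coNP` has dimension `0`. -/
theorem p_UPP_of (hIOS : T_IOS) (hPWL : T_PWL) (hAFF : Pool.Agent.RelB.T_AFF) : T_UPP := by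
  have h : ∀ᵐ ω ∂coin, ∀ e n : ℕ,
      (∀ j, st j = e → ∀ t ∈ Wd j, (Tr j t ω ↔ ¬ Tr2 j t ω)) →
      ∀ m : ℕ, ∃ j, m ≤ j ∧ st j = e ∧ ω ∉ fail (mg n) j :=
    ae_all_iff.2 fun e => ae_all_iff.2 fun n => hIOS e (mg n) (mg_pos n)
  filter_upwards [h] with ω hω0 s hs
  have hω : ∀ e n : ℕ,
      (∀ j, st j = e → ∀ t ∈ Wd j, (Tr j t ω ↔ ¬ Tr2 j t ω)) → ∀ m : ℕ, ∃ j, m ≤ j ∧ st j = e ∧
      Real.exp (-(mg n * 2 ^ (nn j + j) + 2 ^ nn j)) ≤
        Pw (hf ω) j (pre (Lj j ω) (2 ^ (nn j + j))) := by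
    intro e n hj m
    obtain ⟨j, h1, h2, h3⟩ := hω0 e n hj m
    exact ⟨j, h1, h2, hPWL (mg n) j ω h3⟩
  obtain ⟨n, hl⟩ := exists_nat_one_div_lt hs
  obtain ⟨e, he⟩ : ∃ e, e = Nat.pair 0 n := ⟨_, rfl⟩
  have hee : ∀ k, ee (2 ^ (e + 1) * k + (2 ^ e - 1)) = (0, n) := by
    intro k
    rw [ee_kk, he, Nat.unpair_pair]
  have hcov : IsGaleCover s (fun k => dd (hf ω) (2 ^ (e + 1) * k + (2 ^ e - 1)))
      (NPco (oo ω)) := by
    intro k
    refine ⟨Pool.Agent.RelO.MAIN_.gale_mono ?_ (dgale (hf ω) _), ?_, ?_⟩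
    · unfold sK
      rw [hee]
      refine (min_le_right _ _).trans ?_
      exact hl.le
    · refine (dnil (hf ω) _).trans ?_
      refine pow_le_pow_of_le_one (by norm_num) (by norm_num) ?_
      have h1 : 1 ≤ 2 ^ (e + 1) := Nat.one_le_two_pow
      have h2 : 1 * k ≤ 2 ^ (e + 1) * k := Nat.mul_le_mul_right k h1
      omega
    · intro A hA
      exact cov hω n hA _ (by rw [hee])
  obtain ⟨P, c, hap⟩ := appr
  obtain ⟨P', c', hap'⟩ := hAFF (oo ω) P c (2 ^ (e + 1)) (2 ^ e - 1) _ (hap ω)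
  refine ⟨⟨_, hcov, P', c', hap'⟩, ?_⟩
  obtain ⟨c'', hc''⟩ := Pool.Agent.RelO.t12 c'
  exact ⟨_, hcov, P', c'', Pool.Agent.RelO.time _ _ _ _ _ hc'' hap'⟩

end Pool.Agent.RelU
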