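import Pool.Agent.RelU.ACC

/-!
# IOS: infinitely many successes for complementary machines
-/

set_option autoImplicit false

namespace Pool.Agent.RelU

open MeasureTheory Set
open scoped ENNReal
open Pool.Agent.RelM (Lang Instr Cfg run Halts pair triple str pre hq wq sq0 sq1 Asks code qb)
open Pool.Agent.RelO (lev st)
open Pool.Agent.RelS (Z Rl orcV orc acc Idx Om Dep mixP fd meas_of_dep mixP_pos mixP_neg mixP_meas)
open Pool.Agent.RelB (qf)

namespace IOS_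

theorem truth_iff {j : ℕ} (ω : Om) {t : ℕ} (ht : t ∈ Wd j) :
    (Tr j t ω ↔ ans j (hs ω j) ω t) ∧ (Tr2 j t ω ↔ ans2 j (hs ω j) ω t) :=
  accl j t (hf ω) (hs ω j) ω ω ht (fun i hi => (hsval ω j i hi).symm) (fun _ _ => rfl)

theorem hs_congr {j : ℕ} {ω ω' : Om} (h : ∀ a ∈ Old j, ω a = ω' a) : hs ω j = hs ω' j := by
  cases j with
  | zero => rfl
  | succ j => exact hsdep j ω ω' fun a ha => h a (old_mono (Nat.le_succ j) ha)

theorem pp_congr {j t : ℕ} {ω ω' : Om} (h : ∀ a ∈ Old j, ω a = ω' a) :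
    pp j t ω = pp j t ω' := by
  unfold pp
  rw [hs_congr h, pa_congr h]

theorem tr_dep {j : ℕ} {ω ω' : Om} {t : ℕ} (ht : t ∈ Wd j)
    (hw : ∀ a ∈ Old (j + 1), ω a = ω' a) :
    (Tr j t ω ↔ Tr j t ω') ∧ (Tr2 j t ω ↔ Tr2 j t ω') := by
  rw [(truth_iff ω ht).1, (truth_iff ω' ht).1, (truth_iff ω ht).2, (truth_iff ω' ht).2,
    hs_congr fun a ha => hw a (old_mono (Nat.le_succ j) ha)]
  exact accl j t _ _ ω ω' ht (fun _ _ => rfl) hw

theorem ql_dep {j : ℕ} {ω ω' : Om} {t : ℕ} (ht : t ∈ Wd j)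
    (hw : ∀ a ∈ Old (j + 1), ω a = ω' a) : ql j t ω = ql j t ω' := by
  unfold ql
  rw [pp_congr fun a ha => hw a (old_mono (Nat.le_succ j) ha),
    decide_eq_decide.2 (tr_dep ht hw).1]

theorem fail_dep {δ : ℝ} {j : ℕ} {ω ω' : Om} (hw : ∀ a ∈ Old (j + 1), ω a = ω' a) :
    ω ∈ fail δ j ↔ ω' ∈ fail δ j := by
  have h1 : loss j ω = loss j ω' := by
    unfold loss
    refine Finset.sum_congr rfl fun t ht => ?_
    rw [ql_dep ht hw]
  unfold fail
  simp only [Set.mem_ofPred_eq]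
  rw [h1]
  refine or_congr Iff.rfl ?_
  refine exists_congr fun t => and_congr_right fun ht => ?_
  rw [ql_dep ht hw]

/-- The event that the machines are complementary and the stage fails. -/
def Ev (δ : ℝ) (j : ℕ) : Set Om :=
  {ω | (∀ t ∈ Wd j, (Tr j t ω ↔ ¬ Tr2 j t ω)) ∧ ω ∈ fail δ j}

theorem ev_meas (δ : ℝ) (j : ℕ) : MeasurableSet (Ev δ j) := by
  refine fd (oldfin (j + 1)) fun ω ω' h => ?_
  unfold Ev
  simp only [Set.mem_ofPred_eq]
  refine and_congr ?_ (fail_dep h)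
  refine forall_congr' fun t => forall_congr' fun ht => ?_
  rw [(tr_dep ht h).1, (tr_dep ht h).2]

/-- All late stages of the pair number `e` fail, with complementary machines. -/
def SS_ (e : ℕ) (δ : ℝ) (m : ℕ) : Set Om :=
  ⋂ (j : ℕ) (_ : m ≤ j) (_ : st j = e), Ev δ j

theorem ss_meas (e : ℕ) (δ : ℝ) (m : ℕ) : MeasurableSet (SS_ e δ m) :=
  MeasurableSet.iInter fun j => MeasurableSet.iInter fun _ => MeasurableSet.iInter fun _ =>
    ev_meas δ j

theorem ss_mem {e : ℕ} {δ : ℝ} {m : ℕ} {ω : Om} :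
    ω ∈ SS_ e δ m ↔ ∀ j, m ≤ j → st j = e → ω ∈ Ev δ j := by
  unfold SS_
  simp only [Set.mem_iInter]

theorem ss_null (hPAQ : T_PAQ) (hENT : T_ENT) (hDNS : T_DNS) (hSUC : T_SUC) (e : ℕ) (δ : ℝ)
    (hδ : 0 < δ) (m : ℕ) : coin (SS_ e δ m) = 0 := by
  by_contra hne
  obtain ⟨γ, hγ, hent⟩ := hENT (δ / 4) (by positivity)
  obtain ⟨M, hM⟩ := exists_nat_gt (18 / γ)
  have hε : 0 < min (γ / 8) (1 / 4) := lt_min (by positivity) (by norm_num)
  obtain ⟨j, hj, hst, ω, hω⟩ := hDNS (SS_ e δ m) (ss_meas e δ m) hne (min (γ / 8) (1 / 4)) hε e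
    (max m M)
  have hmj : m ≤ j := (le_max_left _ _).trans hj
  have hMj : M ≤ j := (le_max_right _ _).trans hj
  have h0 : ∀ τ, ∀ a ∈ Old j, mixP (Old j) ω τ a = ω a := fun τ a ha => mixP_pos ha
  have hj9 : 9 * (1 / ((j : ℝ) + 1)) ≤ γ / 2 := by
    have h1 : (M : ℝ) ≤ j := by exact_mod_cast hMj
    have h2 : 18 / γ < (j : ℝ) + 1 := by linarith
    rw [div_lt_iff₀ hγ] at h2
    have h3 : (0 : ℝ) < (j : ℝ) + 1 := by positivity
    rw [mul_one_div, div_le_iff₀ h3]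
    linarith
  have hpp : ∀ t ∈ Wd j, Real.binEntropy (pp j t ω) ≤ δ / 4 := by
    intro t ht
    have h1 : coin.real {τ | ans j (hs ω j) (mixP (Old j) ω τ) t ↔
        ans2 j (hs ω j) (mixP (Old j) ω τ) t} ≤ min (γ / 8) (1 / 4) := by
      refine le_trans (measureReal_mono ?_) hω
      intro τ hτ hS
      have h2 := (ss_mem.1 hS j hmj hst).1 t ht
      rw [(truth_iff _ ht).1, (truth_iff _ ht).2, hs_congr (h0 τ)] at h2
      have h3 : ans j (hs ω j) (mixP (Old j) ω τ) t ↔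
        ans2 j (hs ω j) (mixP (Old j) ω τ) t := hτ
      rw [h3] at h2
      exact iff_not_self h2
    have h4 := hPAQ j t (hs ω j) ω (min (γ / 8) (1 / 4)) ht h1
    have h5 : min (γ / 8) (1 / 4) ≤ γ / 8 := min_le_left _ _
    refine hent (pp j t ω) ?_ ?_ ?_
    · unfold pp pa
      exact measureReal_nonneg
    · unfold pp pa
      exact measureReal_le_one
    · show pa j (hs ω j) ω t * (1 - pa j (hs ω j) ω t) ≤ γ
      linarith
  have hsum : ∑ t ∈ Wd j, Real.binEntropy (pp j t ω) ≤ δ / 2 * 2 ^ (nn j + j) := by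
    refine (Finset.sum_le_sum hpp).trans ?_
    rw [Finset.sum_const, nsmul_eq_mul]
    have h1 : ((Wd j).card : ℝ) ≤ 2 ^ (nn j + j) := by
      unfold Wd
      rw [Nat.card_Ico]
      exact_mod_cast Nat.sub_le _ _
    have h2 := mul_le_mul_of_nonneg_right h1 (by positivity : (0 : ℝ) ≤ δ / 4)
    have h3 : (0 : ℝ) ≤ 2 ^ (nn j + j) * δ := by positivity
    linarith
  have h6 := hSUC δ hδ j ω hsum
  have h7 : coin.real {τ | mixP (Old j) ω τ ∈ fail δ j} ≤ 1 / 2 := by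
    rw [Measure.real]
    refine ENNReal.toReal_le_of_le_ofReal (by norm_num) h6
  have h8 : (Set.univ : Set Om) ⊆ {τ | mixP (Old j) ω τ ∉ SS_ e δ m} ∪
      {τ | mixP (Old j) ω τ ∈ fail δ j} := by
    intro τ _
    by_cases h : mixP (Old j) ω τ ∈ SS_ e δ m
    · exact Or.inr (ss_mem.1 h j hmj hst).2
    · exact Or.inl h
  have h9 := measureReal_mono (μ := coin) h8
  have h10 := measureReal_union_le (μ := coin) {τ | mixP (Old j) ω τ ∉ SS_ e δ m}
    {τ | mixP (Old j) ω τ ∈ fail δ j}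
  have h11 : coin.real (Set.univ : Set Om) = 1 := probReal_univ
  have h12 : min (γ / 8) (1 / 4) ≤ 1 / 4 := min_le_right _ _
  linarith

end IOS_

open IOS_

theorem p_IOS_of (hPAQ : T_PAQ) (hENT : T_ENT) (hDNS : T_DNS) (hSUC : T_SUC) : T_IOS := by
  intro e δ hδ
  have h1 : ∀ᵐ ω ∂coin, ∀ m : ℕ, ω ∉ SS_ e δ m := by
    rw [ae_all_iff]
    intro m
    rw [ae_iff]
    have h2 : {ω | ¬ ω ∉ SS_ e δ m} = SS_ e δ m := by
      ext ω
      simp
    rw [h2]
    exact ss_null hPAQ hENT hDNS hSUC e δ hδ m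
  filter_upwards [h1] with ω hω hc m
  by_contra hno
  push Not at hno
  exact hω m (ss_mem.2 fun j hmj hst => ⟨hc j hst, hno j hmj hst⟩)

end Pool.Agent.RelU
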