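import Pool.Agent.RelU.Targets
import Pool.Agent.RelT.NPR

/-!
# RelU, job UPM: the hidden language is in `UP`
-/

set_option autoImplicit false

namespace Pool.Agent.RelU

open MeasureTheory Set
open scoped ENNReal
open Pool.Agent.RelM (Lang Instr Cfg step run Halts Decides E1 E2 NP pair triple binVal outVal
  Approx IsDensity str pre IsNullCover Null1 Null2 wq sq0 sq1 Asks hq code qb)
open Pool.Agent.RelO (lev levpow)
open Pool.Agent.RelS (Z Rl orcV orc acc Idx Om owq)

/-- The only accepted witness of `x` is the key. -/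
theorem p_UPM : T_UPM := by
  intro G ω κ
  refine ⟨Pool.Agent.RelM.vprog κ, κ + 2, κ + 5, ?_⟩
  intro x
  have htime : κ + 5 ≤ (x.length + 2) ^ (κ + 5) :=
    le_trans (le_of_lt Nat.lt_two_pow_self) (Nat.pow_le_pow_left (by omega) _)
  have hhalt : ∀ y, Halts (orc G (zo ω)) (Pool.Agent.RelM.vprog κ) (pair x y) (κ + 5) := by
    intro y
    unfold Halts
    rw [Pool.Agent.RelM.vprog_length]
    by_cases h : orc G (zo ω) (wq κ x y) = true
    · exact (Pool.Agent.RelM.vprog_run_yes _ κ x y h).1.ge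
    · exact (Pool.Agent.RelM.vprog_run_no _ κ x y h).1.ge
  have hrun : ∀ y, run (orc G (zo ω)) (Pool.Agent.RelM.vprog κ) (pair x y)
      ((x.length + 2) ^ (κ + 5)) =
      run (orc G (zo ω)) (Pool.Agent.RelM.vprog κ) (pair x y) (κ + 5) :=
    fun y => Pool.Agent.RelM.stay _ _ _ _ _ (hhalt y) htime
  have hyes : ∀ y, (run (orc G (zo ω)) (Pool.Agent.RelM.vprog κ) (pair x y) (κ + 5)).st 1 =
      [true] ↔ orc G (zo ω) (wq κ x y) = true := by
    intro y
    constructor
    · intro h
      by_contra hno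
      rw [(Pool.Agent.RelM.vprog_run_no _ κ x y hno).2] at h
      simp at h
    · intro h
      exact (Pool.Agent.RelM.vprog_run_yes _ κ x y h).2
  have hkey : ∀ y, orc G (zo ω) (wq κ x y) = true → y = key ω κ x := by
    intro y h
    have h1 : zo ω κ x y = true := ((owq _ G (zo ω) κ x y).1 h).2.2
    unfold zo at h1
    rw [Bool.and_eq_true, decide_eq_true_eq] at h1
    exact h1.2
  refine ⟨?_, ?_, ?_⟩
  · intro y _
    have := hhalt y
    unfold Halts at this ⊢
    rw [hrun y]
    exact this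
  · have hR : Rl (zo ω) κ x = true ↔
        ∃ y : List Bool, y.length = lev κ x ∧ zo ω κ x y = true := by
      simp [Rl]
    rw [hR]
    constructor
    · rintro ⟨y, hy1, hy2⟩
      refine ⟨y, ?_, ?_⟩
      · rw [hy1]
        exact levpow κ x
      · rw [hrun, hyes]
        exact (owq _ G (zo ω) κ x _).2 ⟨trivial, hy1, hy2⟩
    · rintro ⟨y, -, hy⟩
      rw [hrun, hyes] at hy
      exact ⟨y, ((owq _ G (zo ω) κ x y).1 hy).2⟩
  · intro y y' _ _ hy hy'
    rw [hrun, hyes] at hy hy'
    rw [hkey y hy, hkey y' hy']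

end Pool.Agent.RelU
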